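import Pool.Agent.U151.CB.Pow
import Pool.Agent.TH868.CT.Lim

/-!
The set of the boundary points which the half-plane exploration path visits has the domination
property.
-/

set_option autoImplicit false

namespace Pool.Agent.U151.CB

open H974 Finset H731C H389KP MeasureTheory Filter Topology TH868.CT

/-! ### Domination with patterns, finite boxes -/

/-- `x` is visited and the visited points of `T` to the left of `x` are those of `p`. -/
def AP (T p : Finset ℤ) (x : ℤ) (F : Finset Edg) : Prop :=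
  WX 0 F (x, 0) ∧ ∀ s ∈ T, s < x → (WX 0 F (s, 0) ↔ s ∈ p)

theorem vis_stop {N x s : ℤ} (hs0 : 0 < s) (hsx : s < x) {F G : Finset Edg}
    (hF : F ⊆ VE (-N) N 0 N) (hG : G ⊆ VE (-N) N 0 N)
    (h : F ∩ TX (VE (-N) N 0 N) x F = G ∩ TX (VE (-N) N 0 N) x F) :
    WX 0 F (s, 0) ↔ WX 0 G (s, 0) := by
  constructor
  · intro hW
    by_contra hcon
    obtain ⟨i, j, hi, hj, hr⟩ := du_hard hG hs0 hcon
    have hix : 0 ≤ i ∧ i < x := by omega
    exact du_easy (VE_pos hF) hi.1 hi.2 hj (bwd hF hG h hix hr) hW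
  · intro hW
    by_contra hcon
    obtain ⟨i, j, hi, hj, hr⟩ := du_hard hF hs0 hcon
    have hix : 0 ≤ i ∧ i < x := by omega
    exact du_easy (VE_pos hG) hi.1 hi.2 hj (fwd hF hG h hix hr) hW

theorem AP_stop {N x : ℤ} (hx : 0 < x) {T p : Finset ℤ} (hT : ∀ s ∈ T, 1 ≤ s)
    {F G : Finset Edg} (hF : F ⊆ VE (-N) N 0 N) (hG : G ⊆ VE (-N) N 0 N)
    (h : F ∩ TX (VE (-N) N 0 N) x F = G ∩ TX (VE (-N) N 0 N) x F) (hA : AP T p x F) :
    AP T p x G := by
  refine ⟨?_, ?_⟩
  · have h1 : AX (fun _ => False) x F := ⟨hA.1, fun s hs => hs.elim⟩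
    exact (AX_stop hx hF hG h h1).1
  · intro s hs hsx
    rw [← hA.2 s hs hsx]
    exact (vis_stop (by have := hT s hs; omega) hsx hF hG h).symm

theorem dominationP {N x y : ℤ} (hx : 0 < x) (hxy : x < y) {T p : Finset ℤ}
    (hT : ∀ s ∈ T, 1 ≤ s) :
    P2 (VE (-N) N 0 N) (AP T p x) * P2 (VE (-N) N 0 N) (fun F => WX x F (y, 0)) ≤
      P2 (VE (-N) N 0 N) (fun F => AP T p x F ∧ WX 0 F (y, 0)) := by
  have h := swap (S := VE (-N) N 0 N) (TX (VE (-N) N 0 N) x) (A := AP T p x)
    (B := fun F => ¬ WX x F (y, 0)) (B' := fun F => ¬ WX 0 F (y, 0))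
    (fun F G hF hG h => TX_stop hF hG h) (fun F G hF hG h hA => AP_stop hx hT hF hG h hA)
    (fun F G hF hG h hA hB => after (P := fun _ => False) hx hxy hF hG h
      ⟨hA.1, fun s hs => hs.elim⟩ hB)
  have h1 : P2 (VE (-N) N 0 N) (AP T p x) =
      P2 (VE (-N) N 0 N) (fun F => AP T p x F ∧ WX 0 F (y, 0)) +
      P2 (VE (-N) N 0 N) (fun F => AP T p x F ∧ ¬ WX 0 F (y, 0)) := by
    unfold P2 Pr
    rw [← Ex_add]
    apply Ex_congr
    intro F _
    rw [ind_and, ind_and, ind_not]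
    ring
  have h2 : P2 (VE (-N) N 0 N) (fun F => ¬ WX x F (y, 0)) =
      1 - P2 (VE (-N) N 0 N) (fun F => WX x F (y, 0)) := Pr_not _ _
  have h' : P2 (VE (-N) N 0 N) (fun F => AP T p x F ∧ ¬ WX 0 F (y, 0)) ≤
      P2 (VE (-N) N 0 N) (AP T p x) * P2 (VE (-N) N 0 N) (fun F => ¬ WX x F (y, 0)) := h
  rw [h2] at h'
  linarith

/-! ### Infinite volume -/

/-- `(x, 0)` is visited. -/
def VV (x : ℤ) : Set Conf := {ω | ((x, 0) : ℤ × ℕ) ∈ Cm ω}

theorem ev_iff (ω : Conf) (s : ℤ) :
    ∀ᶠ N : ℕ in atTop, (WX 0 (ON N ω) (s, 0) ↔ ω ∈ VV s) := by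
  by_cases h : ω ∈ VV s
  · obtain ⟨N, hN⟩ := Cm_reach h
    filter_upwards [eventually_ge_atTop N] with M hM
    refine ⟨fun _ => h, fun _ => ?_⟩
    have h1 : WX 0 (ON N ω) (s, 0) := hN
    exact Reach.mono (Set.union_subset_union_left _ (by exact_mod_cast ON_mono hM ω)) h1
  · refine Eventually.of_forall fun N => ⟨fun h1 => ?_, fun h1 => absurd h1 h⟩
    have h2 : W (ON N ω) ((s, 0) : Vtx) := h1
    exact absurd (reach_Cm h2).2 h

theorem meas_ONk (N : ℕ) (Q : Finset Edg → Prop) : MeasurableSet {ω : Conf | Q (ON N ω)} := by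
  classical
  have hU : {ω : Conf | Q (ON N ω)} = ⋃ T ∈ (VE (-(N : ℤ)) N 0 N).powerset.filter Q,
      {ω | GO tn (VE (-(N : ℤ)) N 0 N) ω = T} := by
    ext ω
    simp only [Set.mem_iUnion, Finset.mem_filter, Finset.mem_powerset]
    constructor
    · intro h
      exact ⟨ON N ω, ⟨Finset.filter_subset _ _, h⟩, rfl⟩
    · rintro ⟨T, ⟨-, hQ⟩, hω⟩
      have hω' : ON N ω = T := hω
      show Q (ON N ω)
      rw [hω']; exact hQ
  rw [hU]
  exact Finset.measurableSet_biUnion _ (fun T _ => meas_GO (tn_inj N) T)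

theorem meas_VV (x : ℤ) : MeasurableSet (VV x) := by
  have e : VV x = ⋃ N : ℕ, {ω | WX 0 (ON N ω) (x, 0)} := by
    ext ω
    rw [Set.mem_iUnion]
    constructor
    · intro h
      obtain ⟨N, hN⟩ := Cm_reach h
      exact ⟨N, hN⟩
    · rintro ⟨N, hN⟩
      have h2 : W (ON N ω) ((x, 0) : Vtx) := hN
      exact (reach_Cm h2).2
  rw [e]
  exact MeasurableSet.iUnion fun N => meas_ONk N fun F => WX 0 F (x, 0)

/-- Passage to the infinite volume. -/
theorem lim_of {Q : Finset Edg → Prop} {A : Set Conf} (hA : MeasurableSet A)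
    (h : ∀ ω, ∀ᶠ N : ℕ in atTop, (Q (ON N ω) ↔ ω ∈ A)) :
    Tendsto (fun N : ℕ => P2 (VE (-(N : ℤ)) N 0 N) Q) atTop (𝓝 (perc.real A)) := by
  have h1 := tendsto_measure_of_ae_tendsto_indicator_of_isFiniteMeasure (μ := perc) atTop
    (As := fun N : ℕ => {ω : Conf | Q (ON N ω)}) hA (fun N => meas_ONk N Q)
    (Eventually.of_forall fun ω => h ω)
  have h2 := (ENNReal.tendsto_toReal (measure_ne_top perc A)).comp h1
  refine h2.congr fun N => ?_
  rw [← ON_event N Q]
  rfl

theorem lim_V (x : ℤ) : Tendsto (fun N : ℕ => P2 (VE (-(N : ℤ)) N 0 N)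
    (fun F => WX 0 F (x, 0))) atTop (𝓝 (perc.real (VV x))) :=
  lim_of (meas_VV x) fun ω => ev_iff ω x

theorem lim_V2 (x y : ℤ) : Tendsto (fun N : ℕ => P2 (VE (-(N : ℤ)) N 0 N)
    (fun F => WX 0 F (x, 0) ∧ WX 0 F (y, 0))) atTop (𝓝 (perc.real (VV x ∩ VV y))) :=
  lim_of ((meas_VV x).inter (meas_VV y)) fun ω => by
    filter_upwards [ev_iff ω x, ev_iff ω y] with N h1 h2
    rw [h1, h2]
    rfl

theorem ev_AP (ω : Conf) (T p : Finset ℤ) (x : ℤ) :
    ∀ᶠ N : ℕ in atTop, (AP T p x (ON N ω) ↔ ω ∈ VV x ∩ Pat VV T x p) := by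
  have h1 : ∀ᶠ N : ℕ in atTop, ∀ s ∈ T, (WX 0 (ON N ω) (s, 0) ↔ ω ∈ VV s) :=
    (Finset.eventually_all T).mpr fun s _ => ev_iff ω s
  filter_upwards [h1, ev_iff ω x] with N h2 h3
  unfold AP
  rw [h3]
  refine and_congr Iff.rfl ?_
  show _ ↔ (∀ s ∈ T, s < x → (ω ∈ VV s ↔ s ∈ p))
  constructor
  · intro h s hs hsx
    rw [← h2 s hs]
    exact h s hs hsx
  · intro h s hs hsx
    rw [h2 s hs]
    exact h s hs hsx

/-- **The visited boundary points have the domination property.** -/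
theorem base : ∃ c C : ℝ, Sys perc VV ps kern c C := by
  obtain ⟨c1, hc1, h1⟩ := one_low
  obtain ⟨C1, hC1, h2⟩ := one_up
  obtain ⟨C2, hC2, h3⟩ := two_kern
  obtain ⟨c2, hc2, h4⟩ := shift_low
  set c := min (min c1 c2) 1 with hc
  have hc0 : 0 < c := lt_min (lt_min hc1 hc2) one_pos
  have hcc1 : c ≤ c1 := (min_le_left _ _).trans (min_le_left _ _)
  have hcc2 : c ≤ c2 := (min_le_left _ _).trans (min_le_right _ _)
  have hc1' : c ≤ 1 := min_le_right _ _
  refine ⟨c, max C1 C2, hc0, lt_max_of_lt_left hC1, meas_VV, fun x hx => ps_pos (by omega),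
    fun x y hx hy => kern_ge_one hx hy, kern_comm, ?_, ?_, ?_, ?_⟩
  · intro x hx
    refine ge_of_tendsto (lim_V x) ?_
    filter_upwards [eventually_ge_atTop (40 * x).toNat] with N hN
    refine le_trans ?_ (h1 x N hx (by omega))
    exact mul_le_mul_of_nonneg_right hcc1 (ps_pos (by omega)).le
  · intro x hx
    refine le_of_tendsto (lim_V x) ?_
    filter_upwards [eventually_ge_atTop (4 * x).toNat] with N hN
    refine (h2 x N hx (by omega)).trans ?_
    exact mul_le_mul_of_nonneg_right (le_max_left _ _) (ps_pos (by omega)).le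
  · intro x y hx hy
    refine le_of_tendsto (lim_V2 x y) ?_
    filter_upwards [eventually_ge_atTop (4 * x).toNat, eventually_ge_atTop (4 * y).toNat]
      with N hN hN'
    refine (h3 x y N hx hy (by omega) (by omega)).trans ?_
    apply mul_le_mul_of_nonneg_right (le_max_right _ _)
    exact mul_nonneg (mul_nonneg (ps_pos (by omega)).le (ps_pos (by omega)).le)
      (kern_nonneg hx hy)
  · intro T p x y hT hx hxy
    have hy : 1 ≤ y := hx.trans hxy
    have hpy := ps_pos (n := y) (by omega)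
    have hk := kern_le_ps (x := x) (y := y) (by omega) hy hxy
    rw [le_div_iff₀ hpy] at hk
    rcases lt_or_eq_of_le hxy with hlt | heq
    · have l1 : Tendsto (fun N : ℕ => P2 (VE (-(N : ℤ)) N 0 N) (AP T p x)) atTop
          (𝓝 (perc.real (VV x ∩ Pat VV T x p))) :=
        lim_of ((meas_VV x).inter (meas_Pat meas_VV T x p)) fun ω => ev_AP ω T p x
      have l2 : Tendsto (fun N : ℕ => P2 (VE (-(N : ℤ)) N 0 N)
          (fun F => AP T p x F ∧ WX 0 F (y, 0))) atTop
          (𝓝 (perc.real (VV x ∩ Pat VV T x p ∩ VV y))) :=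
        lim_of (((meas_VV x).inter (meas_Pat meas_VV T x p)).inter (meas_VV y)) fun ω => by
          filter_upwards [ev_AP ω T p x, ev_iff ω y] with N k1 k2
          rw [k1, k2]
          rfl
      refine le_of_tendsto_of_tendsto (l1.const_mul (c * (ps y * kern x y))) l2 ?_
      filter_upwards [eventually_ge_atTop (40 * y).toNat] with N hN
      have k1 := h4 x y N (by omega) hlt (by omega)
      have k2 := dominationP (N := N) (p := p) (show 0 < x by omega) hlt hT
      have k0 : 0 ≤ P2 (VE (-(N : ℤ)) N 0 N) (AP T p x) := Pr_nonneg okhalf2 _ _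
      have hpp := ps_pos (n := y - x) (by omega)
      calc c * (ps y * kern x y) * P2 (VE (-(N : ℤ)) N 0 N) (AP T p x)
          ≤ c2 * ps (y - x) * P2 (VE (-(N : ℤ)) N 0 N) (AP T p x) := by
            apply mul_le_mul_of_nonneg_right _ k0
            apply mul_le_mul hcc2 (by linarith) _ hc2.le
            exact mul_nonneg hpy.le (kern_nonneg hx hy)
        _ ≤ P2 (VE (-(N : ℤ)) N 0 N) (AP T p x) *
            P2 (VE (-(N : ℤ)) N 0 N) (fun F => WX x F (y, 0)) := by
            rw [mul_comm]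
            exact mul_le_mul_of_nonneg_left k1 k0
        _ ≤ _ := k2
    · subst heq
      have e : VV x ∩ Pat VV T x p ∩ VV x = VV x ∩ Pat VV T x p := by
        ext ω
        constructor
        · exact fun h => h.1
        · exact fun h => ⟨h, h.1⟩
      rw [e]
      rw [sub_self, ps_zero] at hk
      have k3 : c * (ps x * kern x x) ≤ 1 := by
        calc c * (ps x * kern x x) ≤ 1 * 1 := by
              apply mul_le_mul hc1' (by linarith) _ zero_le_one
              exact mul_nonneg hpy.le (kern_nonneg hx hx)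
          _ = 1 := one_mul 1
      calc c * (ps x * kern x x) * perc.real (VV x ∩ Pat VV T x p)
          ≤ 1 * perc.real (VV x ∩ Pat VV T x p) :=
            mul_le_mul_of_nonneg_right k3 measureReal_nonneg
        _ = _ := one_mul _

end Pool.Agent.U151.CB
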