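import Pool.Agent.U151.CB.Pow
import Pool.Agent.TH868.CT.ZO

/-!
Wiener's test for random sets with the domination property.
-/

set_option autoImplicit false

namespace Pool.Agent.U151.CB

open MeasureTheory Finset Filter Topology
open scoped ENNReal

/-- The events which are determined by finitely many data. -/
def Alg {Ω β : Type*} (O : ℕ → Ω → β) : Set (Set Ω) :=
  {A | ∃ (N : ℕ) (s : Set β), A = O N ⁻¹' s}

/-- Random sets with the domination property and with almost independent scales. `O N` are the data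
inside the box of size `N`, and `W R x ⊆ V x` is an event which does not depend on `O R`. -/
structure Sys2 {Ω β : Type*} [MeasurableSpace Ω] (μ : Measure Ω) (V : ℤ → Set Ω) (g : ℤ → ℝ)
    (K : ℤ → ℤ → ℝ) (c C D : ℝ) (O : ℕ → Ω → β) (W : ℕ → ℤ → Set Ω) : Prop where
  sys : Sys μ V g K c C
  hD : 1 ≤ D
  far : ∀ x y, 1 ≤ x → 2 * x ≤ y → K x y ≤ D
  Omeas : ∀ N (s : Set β), MeasurableSet (O N ⁻¹' s)
  Ofac : ∀ N M, N ≤ M → ∃ f : β → β, ∀ ω, O N ω = f (O M ω)
  Vgen : ∀ x, MeasurableSet[MeasurableSpace.generateFrom (Alg O)] (V x)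
  Wmeas : ∀ R x, MeasurableSet (W R x)
  WV : ∀ R x, W R x ⊆ V x
  Wlow : ∀ (R : ℕ) x, 3 * ((R : ℤ) + 1) ≤ x → c * g x ≤ μ.real (W R x)
  ind : ∀ R (s : Set β) x y,
    μ (O R ⁻¹' s ∩ (W R x ∩ W R y)) = μ (O R ⁻¹' s) * μ (W R x ∩ W R y)

variable {Ω β : Type*} [MeasurableSpace Ω] {μ : Measure Ω} [IsProbabilityMeasure μ]
  {V : ℤ → Set Ω} {g : ℤ → ℝ} {K : ℤ → ℤ → ℝ} {c C D : ℝ} {O : ℕ → Ω → β} {W : ℕ → ℤ → Set Ω}

omit [IsProbabilityMeasure μ] in
theorem Alg_isSetAlgebra (h : Sys2 μ V g K c C D O W) : IsSetAlgebra (Alg O) where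
  empty_mem := ⟨0, ∅, by simp⟩
  compl_mem := by
    rintro _ ⟨N, s, rfl⟩
    exact ⟨N, sᶜ, rfl⟩
  union_mem := by
    rintro _ _ ⟨N, s, rfl⟩ ⟨M, t, rfl⟩
    obtain ⟨f, hf⟩ := h.Ofac N (max N M) (le_max_left _ _)
    obtain ⟨f', hf'⟩ := h.Ofac M (max N M) (le_max_right _ _)
    refine ⟨max N M, f ⁻¹' s ∪ f' ⁻¹' t, ?_⟩
    ext ω
    simp only [Set.mem_union, Set.mem_preimage]
    rw [← hf, ← hf']

omit [IsProbabilityMeasure μ] in
theorem Alg_meas (h : Sys2 μ V g K c C D O W) : ∀ s ∈ Alg O, MeasurableSet s := by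
  rintro _ ⟨N, s, rfl⟩
  exact h.Omeas N s

omit [IsProbabilityMeasure μ] in
/-- infinitely many points of `S` -/
theorem inf_gen (h : Sys2 μ V g K c C D O W) {S : Set ℤ} (hS : ∀ x ∈ S, 1 ≤ x) :
    MeasurableSet[MeasurableSpace.generateFrom (Alg O)]
    {ω : Ω | {x | x ∈ S ∧ ω ∈ V x}.Infinite} := by
  have e : {ω : Ω | {x | x ∈ S ∧ ω ∈ V x}.Infinite} =
      ⋂ n : ℕ, ⋃ x ∈ {x : ℤ | x ∈ S ∧ (n : ℤ) ≤ x}, V x := by
    ext ω
    rw [Set.mem_iInter]
    constructor
    · intro h n
      rw [Set.mem_iUnion₂]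
      by_contra hcon
      push Not at hcon
      apply h
      apply (Set.finite_Icc (1 : ℤ) n).subset
      rintro x ⟨hx, hC⟩
      refine ⟨hS x hx, ?_⟩
      by_contra hlt
      push Not at hlt
      exact hcon x ⟨hx, hlt.le⟩ hC
    · intro h hfin
      obtain ⟨A, hA⟩ := hfin.bddAbove
      have h1 := h (A.toNat + 1)
      rw [Set.mem_iUnion₂] at h1
      obtain ⟨x, ⟨hx, hxn⟩, hC⟩ := h1
      have h2 : x ≤ A := hA ⟨hx, hC⟩
      push_cast at hxn
      omega
  rw [e]
  apply MeasurableSet.iInter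
  intro n
  apply MeasurableSet.biUnion (Set.to_countable _)
  intro x _
  exact h.Vgen x

/-- The total weight of the blocks. -/
noncomputable def XX (V : ℤ → Set Ω) (g : ℤ → ℝ) (n : ℕ) (T : ℕ → Finset ℤ) (u : ℕ → ℤ → ℝ)
    (ω : Ω) : ℝ := ∑ k ∈ range n, Zf V g (T k) (u k) ω

omit [MeasurableSpace Ω] in
theorem Zf_nonneg' {S : Finset ℤ} (hg : ∀ x ∈ S, 0 < g x) {v : ℤ → ℝ} (hv : ∀ x ∈ S, 0 ≤ v x)
    (ω : Ω) : 0 ≤ Zf V g S v ω := by
  unfold Zf
  apply Finset.sum_nonneg
  intro x hx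
  exact mul_nonneg (div_nonneg (hv x hx) (hg x hx).le) (Set.indicator_nonneg (by simp) _)

/-- Second moment method for the blocks, together with an event inside the box. -/
theorem block (h : Sys2 μ V g K c C D O W) (R : ℕ) (s : Set β) (n : ℕ) (T : ℕ → Finset ℤ)
    (u : ℕ → ℤ → ℝ) (hT : ∀ k < n, ∀ x ∈ T k, 3 * ((R : ℤ) + 1) ≤ x ∧ 0 ≤ u k x)
    (hsep : ∀ j k, j < k → k < n → ∀ x ∈ T j, ∀ y ∈ T k, 2 * x ≤ y)
    (hen : ∀ k < n, en K (T k) (u k) ≤ 2 * ∑ x ∈ T k, u k x)
    (hs1 : 1 ≤ ∑ k ∈ range n, ∑ x ∈ T k, u k x) :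
    c ^ 2 / (4 * (C * (D + 2))) * μ.real (O R ⁻¹' s) ≤
      μ.real (O R ⁻¹' s ∩ {ω | c * (∑ k ∈ range n, ∑ x ∈ T k, u k x) / 2 ≤
        XX (W R) g n T u ω}) := by
  have hc := h.sys.hc
  have hC := h.sys.hC
  have hD := h.hD
  set S := ∑ k ∈ range n, ∑ x ∈ T k, u k x with hS
  set B := O R ⁻¹' s with hB
  have hBm : MeasurableSet B := h.Omeas R s
  have hT1 : ∀ k ∈ range n, ∀ x ∈ T k, 1 ≤ x := fun k hk x hx => by
    have := (hT k (Finset.mem_range.mp hk) x hx).1
    omega
  have hu0 : ∀ k ∈ range n, ∀ x ∈ T k, 0 ≤ u k x := fun k hk x hx =>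
    (hT k (Finset.mem_range.mp hk) x hx).2
  have hind : ∀ x y, μ.real (B ∩ (W R x ∩ W R y)) = μ.real B * μ.real (W R x ∩ W R y) := by
    intro x y
    rw [measureReal_def, measureReal_def, measureReal_def, ← ENNReal.toReal_mul]
    congr 1
    exact h.ind R s x y
  have hind1 : ∀ x, μ.real (B ∩ W R x) = μ.real B * μ.real (W R x) := by
    intro x
    have := hind x x
    rwa [Set.inter_self] at this
  -- first moment
  have i1 : ∀ k ∈ range n, Integrable (fun ω => B.indicator 1 ω * Zf (W R) g (T k) (u k) ω) μ :=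
    fun k _ => (int_Zf (h.Wmeas R) (T k) (u k) B hBm).1
  have eX : (fun ω => B.indicator 1 ω * XX (W R) g n T u ω) =
      fun ω => ∑ k ∈ range n, B.indicator 1 ω * Zf (W R) g (T k) (u k) ω := by
    funext ω
    unfold XX
    rw [Finset.mul_sum]
  have iX : Integrable (fun ω => B.indicator 1 ω * XX (W R) g n T u ω) μ := by
    rw [eX]
    exact integrable_finsetSum _ i1
  have m1 : c * S * μ.real B ≤ ∫ ω, B.indicator 1 ω * XX (W R) g n T u ω ∂μ := by
    rw [eX, integral_finsetSum _ i1, hS, Finset.mul_sum, Finset.sum_mul]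
    apply Finset.sum_le_sum
    intro k hk
    rw [(int_Zf (h.Wmeas R) (T k) (u k) B hBm).2, Finset.mul_sum, Finset.sum_mul]
    apply Finset.sum_le_sum
    intro x hx
    have hg := h.sys.gpos x (hT1 k hk x hx)
    have h2 := h.Wlow R x (hT k (Finset.mem_range.mp hk) x hx).1
    rw [hind1]
    calc c * u k x * μ.real B = u k x / g x * (μ.real B * (c * g x)) := by field_simp
      _ ≤ u k x / g x * (μ.real B * μ.real (W R x)) := by
        apply mul_le_mul_of_nonneg_left _ (div_nonneg (hu0 k hk x hx) hg.le)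
        exact mul_le_mul_of_nonneg_left h2 measureReal_nonneg
  -- second moment
  have hprod : ∀ j k, Integrable (fun ω => B.indicator 1 ω *
      (Zf (W R) g (T j) (u j) ω * Zf (W R) g (T k) (u k) ω)) μ ∧
      ∫ ω, B.indicator 1 ω * (Zf (W R) g (T j) (u j) ω * Zf (W R) g (T k) (u k) ω) ∂μ =
        ∑ x ∈ T j, ∑ y ∈ T k, u j x / g x * (u k y / g y) *
          μ.real (B ∩ (W R x ∩ W R y)) := by
    intro j k
    have e : (fun ω => B.indicator 1 ω *
        (Zf (W R) g (T j) (u j) ω * Zf (W R) g (T k) (u k) ω)) =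
        fun ω => ∑ x ∈ T j, ∑ y ∈ T k, u j x / g x * (u k y / g y) *
          (B ∩ (W R x ∩ W R y)).indicator (1 : Ω → ℝ) ω := by
      funext ω
      unfold Zf
      rw [Finset.sum_mul_sum, Finset.mul_sum]
      apply Finset.sum_congr rfl
      intro x _
      rw [Finset.mul_sum]
      apply Finset.sum_congr rfl
      intro y _
      rw [Set.inter_indicator_one, Set.inter_indicator_one]
      simp only [Pi.mul_apply]
      ring
    have hi : ∀ x ∈ T j, ∀ y ∈ T k, Integrable (fun ω => u j x / g x * (u k y / g y) *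
        (B ∩ (W R x ∩ W R y)).indicator (1 : Ω → ℝ) ω) μ := by
      intro x _ y _
      exact ((integrable_const (1 : ℝ)).indicator
        (hBm.inter ((h.Wmeas R x).inter (h.Wmeas R y)))).const_mul _
    rw [e]
    refine ⟨integrable_finsetSum _ fun x hx => integrable_finsetSum _ fun y hy => hi x hx y hy, ?_⟩
    rw [integral_finsetSum _ fun x hx => integrable_finsetSum _ fun y hy => hi x hx y hy]
    apply Finset.sum_congr rfl
    intro x hx
    rw [integral_finsetSum _ fun y hy => hi x hx y hy]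
    apply Finset.sum_congr rfl
    intro y _
    rw [integral_const_mul, integral_indicator_one
      (hBm.inter ((h.Wmeas R x).inter (h.Wmeas R y)))]
  have eX2 : (fun ω => B.indicator 1 ω * XX (W R) g n T u ω ^ 2) =
      fun ω => ∑ j ∈ range n, ∑ k ∈ range n, B.indicator 1 ω *
        (Zf (W R) g (T j) (u j) ω * Zf (W R) g (T k) (u k) ω) := by
    funext ω
    unfold XX
    rw [sq, Finset.sum_mul_sum, Finset.mul_sum]
    apply Finset.sum_congr rfl
    intro j _
    rw [Finset.mul_sum]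
  have iX2 : Integrable (fun ω => B.indicator 1 ω * XX (W R) g n T u ω ^ 2) μ := by
    rw [eX2]
    exact integrable_finsetSum _ fun j _ => integrable_finsetSum _ fun k _ => (hprod j k).1
  have hw : ∀ k ∈ range n, 0 ≤ ∑ x ∈ T k, u k x := fun k hk => Finset.sum_nonneg (hu0 k hk)
  have m2 : ∫ ω, B.indicator 1 ω * XX (W R) g n T u ω ^ 2 ∂μ ≤
      C * ((D + 2) * S ^ 2) * μ.real B := by
    rw [eX2, integral_finsetSum _ fun j _ => integrable_finsetSum _ fun k _ => (hprod j k).1]
    have e2 : ∀ j ∈ range n, ∀ k ∈ range n, ∫ ω, B.indicator 1 ω *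
        (Zf (W R) g (T j) (u j) ω * Zf (W R) g (T k) (u k) ω) ∂μ ≤
        C * (∑ x ∈ T j, ∑ y ∈ T k, u j x * u k y * K x y) * μ.real B := by
      intro j hj k hk
      rw [(hprod j k).2, Finset.mul_sum, Finset.sum_mul]
      apply Finset.sum_le_sum
      intro x hx
      rw [Finset.mul_sum, Finset.sum_mul]
      apply Finset.sum_le_sum
      intro y hy
      have hx1 := hT1 j hj x hx
      have hy1 := hT1 k hk y hy
      have hgx := h.sys.gpos x hx1
      have hgy := h.sys.gpos y hy1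
      have h2 := h.sys.two x y hx1 hy1
      have h3 : μ.real (W R x ∩ W R y) ≤ μ.real (V x ∩ V y) :=
        measureReal_mono (Set.inter_subset_inter (h.WV R x) (h.WV R y)) (measure_ne_top _ _)
      rw [hind]
      calc u j x / g x * (u k y / g y) * (μ.real B * μ.real (W R x ∩ W R y))
          ≤ u j x / g x * (u k y / g y) * (μ.real B * (C * (g x * g y * K x y))) := by
            apply mul_le_mul_of_nonneg_left _ (mul_nonneg (div_nonneg (hu0 j hj x hx) hgx.le)
              (div_nonneg (hu0 k hk y hy) hgy.le))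
            exact mul_le_mul_of_nonneg_left (h3.trans h2) measureReal_nonneg
        _ = C * (u j x * u k y * K x y) * μ.real B := by field_simp
    have e3 : ∀ j ∈ range n, ∀ k ∈ range n, ∑ x ∈ T j, ∑ y ∈ T k, u j x * u k y * K x y ≤
        D * ((∑ x ∈ T j, u j x) * (∑ y ∈ T k, u k y)) +
          (if j = k then 2 * ∑ x ∈ T j, u j x else 0) := by
      intro j hj k hk
      by_cases hjk : j = k
      · subst hjk
        rw [if_pos rfl]
        have h3 := hen j (Finset.mem_range.mp hj)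
        unfold en at h3
        have h4 := hw j hj
        have h5 : 0 ≤ D * ((∑ x ∈ T j, u j x) * (∑ y ∈ T j, u j y)) := by positivity
        linarith
      · rw [if_neg hjk, add_zero, Finset.sum_mul_sum, Finset.mul_sum]
        apply Finset.sum_le_sum
        intro x hx
        rw [Finset.mul_sum]
        apply Finset.sum_le_sum
        intro y hy
        have hx1 := hT1 j hj x hx
        have hy1 := hT1 k hk y hy
        have hk2 : K x y ≤ D := by
          rcases lt_or_gt_of_ne hjk with hlt | hlt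
          · exact h.far x y hx1 (hsep j k hlt (Finset.mem_range.mp hk) x hx y hy)
          · rw [h.sys.Ksymm]
            exact h.far y x hy1 (hsep k j hlt (Finset.mem_range.mp hj) y hy x hx)
        have h5 := mul_nonneg (hu0 j hj x hx) (hu0 k hk y hy)
        nlinarith
    calc _ ≤ ∑ j ∈ range n, ∑ k ∈ range n, C * (D * ((∑ x ∈ T j, u j x) * (∑ y ∈ T k, u k y)) +
          (if j = k then 2 * ∑ x ∈ T j, u j x else 0)) * μ.real B := by
          apply Finset.sum_le_sum
          intro j hj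
          rw [integral_finsetSum _ fun k _ => (hprod j k).1]
          apply Finset.sum_le_sum
          intro k hk
          refine (e2 j hj k hk).trans ?_
          apply mul_le_mul_of_nonneg_right _ measureReal_nonneg
          exact mul_le_mul_of_nonneg_left (e3 j hj k hk) hC.le
      _ = C * (D * (S * S) + 2 * S) * μ.real B := by
          rw [hS]
          simp only [← Finset.sum_mul, ← Finset.mul_sum, Finset.sum_add_distrib]
          congr 3
          rw [Finset.mul_sum]
          apply Finset.sum_congr rfl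
          intro j hj
          rw [Finset.sum_ite_eq, if_pos hj]
      _ ≤ C * ((D + 2) * S ^ 2) * μ.real B := by
          apply mul_le_mul_of_nonneg_right _ measureReal_nonneg
          apply mul_le_mul_of_nonneg_left _ hC.le
          nlinarith
  -- conclusion
  have hS0 : 0 < S := by linarith
  have hM0 : 0 < C * ((D + 2) * S ^ 2) := by positivity
  set l : ℝ := c * S / (2 * (C * ((D + 2) * S ^ 2))) with hl
  have hl0 : 0 < l := by positivity
  have hXm : Measurable (XX (W R) g n T u) := by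
    unfold XX Zf
    apply Finset.measurable_sum
    intro k _
    apply Finset.measurable_sum
    intro x _
    exact (measurable_const.indicator (h.Wmeas R x)).const_mul _
  have hEm : MeasurableSet {ω | c * S / 2 ≤ XX (W R) g n T u ω} :=
    measurableSet_le measurable_const hXm
  have hX0 : ∀ ω, 0 ≤ XX (W R) g n T u ω := fun ω => Finset.sum_nonneg fun k hk =>
    Zf_nonneg' (fun x hx => h.sys.gpos x (hT1 k hk x hx)) (hu0 k hk) ω
  have key : ∀ ω, l * (2 * (B.indicator 1 ω * XX (W R) g n T u ω) - c * S * B.indicator 1 ω) -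
      l ^ 2 * (B.indicator 1 ω * XX (W R) g n T u ω ^ 2) ≤
      (B ∩ {ω | c * S / 2 ≤ XX (W R) g n T u ω}).indicator (1 : Ω → ℝ) ω := by
    intro ω
    have h0 := hX0 ω
    set X := XX (W R) g n T u ω with hX
    by_cases hωB : ω ∈ B
    · rw [Set.indicator_of_mem hωB, Pi.one_apply]
      by_cases hωE : ω ∈ ({ω | c * S / 2 ≤ XX (W R) g n T u ω} : Set Ω)
      · rw [Set.indicator_of_mem (Set.mem_inter hωB hωE), Pi.one_apply]
        have : 0 ≤ l * (c * S) := by positivity
        nlinarith [sq_nonneg (1 - l * X)]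
      · have h3 : X < c * S / 2 := by
          simpa only [Set.mem_ofPred_eq, not_le] using hωE
        rw [Set.indicator_of_notMem (fun h4 => hωE h4.2)]
        have h4 : l * (2 * (1 * X) - c * S * 1) ≤ 0 :=
          mul_nonpos_of_nonneg_of_nonpos hl0.le (by linarith)
        have h5 : 0 ≤ l ^ 2 * (1 * X ^ 2) := by positivity
        linarith
    · rw [Set.indicator_of_notMem hωB, Set.indicator_of_notMem (fun h4 => hωB h4.1)]
      simp
  have iB : Integrable (B.indicator (1 : Ω → ℝ)) μ := (integrable_const (1 : ℝ)).indicator hBm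
  have i3 : Integrable (fun ω => l * (2 * (B.indicator 1 ω * XX (W R) g n T u ω) -
      c * S * B.indicator 1 ω)) μ := ((iX.const_mul 2).sub (iB.const_mul (c * S))).const_mul l
  have hint : ∫ ω, (l * (2 * (B.indicator 1 ω * XX (W R) g n T u ω) - c * S * B.indicator 1 ω) -
      l ^ 2 * (B.indicator 1 ω * XX (W R) g n T u ω ^ 2)) ∂μ ≤
      μ.real (B ∩ {ω | c * S / 2 ≤ XX (W R) g n T u ω}) := by
    rw [← integral_indicator_one (hBm.inter hEm)]
    exact integral_mono (i3.sub (iX2.const_mul _))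
      ((integrable_const (1 : ℝ)).indicator (hBm.inter hEm)) key
  rw [integral_sub i3 (iX2.const_mul _), integral_const_mul, integral_const_mul,
    integral_sub (iX.const_mul 2) (iB.const_mul (c * S)), integral_const_mul, integral_const_mul,
    integral_indicator_one hBm] at hint
  refine le_trans ?_ hint
  have hB0 : 0 ≤ μ.real B := measureReal_nonneg
  have a1 : l * (2 * (c * S * μ.real B) - c * S * μ.real B) ≤
      l * (2 * (∫ ω, B.indicator 1 ω * XX (W R) g n T u ω ∂μ) - c * S * μ.real B) := by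
    apply mul_le_mul_of_nonneg_left _ hl0.le
    linarith
  have a2 : l ^ 2 * (∫ ω, B.indicator 1 ω * XX (W R) g n T u ω ^ 2 ∂μ) ≤
      l ^ 2 * (C * ((D + 2) * S ^ 2) * μ.real B) :=
    mul_le_mul_of_nonneg_left m2 (by positivity)
  have e1 : c ^ 2 / (4 * (C * (D + 2))) * μ.real B =
      l * (2 * (c * S * μ.real B) - c * S * μ.real B) -
        l ^ 2 * (C * ((D + 2) * S ^ 2) * μ.real B) := by
    rw [hl]
    field_simp
    ring
  linarith

omit [MeasurableSpace Ω] in
theorem Zf_le {S : Finset ℤ} (hg : ∀ x ∈ S, 0 < g x) {v : ℤ → ℝ} (hv : ∀ x ∈ S, 0 ≤ v x)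
    (V : ℤ → Set Ω) (ω : Ω) : Zf V g S v ω ≤ ∑ x ∈ S, v x / g x := by
  unfold Zf
  apply Finset.sum_le_sum
  intro x hx
  have h1 : 0 ≤ v x / g x := div_nonneg (hv x hx) (hg x hx).le
  calc v x / g x * (V x).indicator 1 ω ≤ v x / g x * 1 := by
        apply mul_le_mul_of_nonneg_left _ h1
        exact Set.indicator_le_self' (by simp) ω |>.trans (le_of_eq rfl)
    _ = v x / g x := mul_one _

/-! ### The divergence part -/

theorem div_main (h : Sys2 μ V g K c C D O W) {T : ℕ → Finset ℤ} {u : ℕ → ℤ → ℝ}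
    (hT : ∀ k, ∀ x ∈ T k, 1 ≤ x ∧ (2 : ℤ) ^ k ≤ x ∧ 0 ≤ u k x)
    (hsep : ∀ j k, j < k → ∀ x ∈ T j, ∀ y ∈ T k, 2 * x ≤ y)
    (hen : ∀ k, en K (T k) (u k) ≤ 2 * ∑ x ∈ T k, u k x)
    (hdiv : ¬ Summable (fun k => ∑ x ∈ T k, u k x)) :
    ∀ᵐ ω ∂μ, {x : ℤ | (∃ k, x ∈ T k) ∧ ω ∈ V x}.Infinite := by
  have hc := h.sys.hc
  have hC := h.sys.hC
  have hD := h.hD
  set c₂ : ℝ := c ^ 2 / (4 * (C * (D + 2))) with hc₂
  have hc₂0 : 0 < c₂ := by positivity
  set E : Set Ω := {ω | {x : ℤ | x ∈ {x : ℤ | ∃ k, x ∈ T k} ∧ ω ∈ V x}.Infinite} with hE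
  have hS1 : ∀ x ∈ {x : ℤ | ∃ k, x ∈ T k}, 1 ≤ x := by
    rintro x ⟨k, hx⟩
    exact (hT k x hx).1
  have hEm := inf_gen h hS1
  rw [← hE] at hEm
  have key : ∀ B ∈ Alg O, c₂ * μ.real B ≤ μ.real (B ∩ E) := by
    rintro _ ⟨R, s, rfl⟩
    set B : Set Ω := O R ⁻¹' s with hB
    -- forget the first blocks
    obtain ⟨k₀, hk₀⟩ : ∃ k₀ : ℕ, 3 * ((R : ℤ) + 1) ≤ 2 ^ k₀ := by
      obtain ⟨k, hk⟩ := pow_unbounded_of_one_lt (3 * ((R : ℤ) + 1)) (by norm_num : (1 : ℤ) < 2)
      exact ⟨k, hk.le⟩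
    set T' : ℕ → Finset ℤ := fun k => T (k + k₀) with hT'
    set u' : ℕ → ℤ → ℝ := fun k => u (k + k₀) with hu'
    have hw0 : ∀ k, 0 ≤ ∑ x ∈ T' k, u' k x := fun k =>
      Finset.sum_nonneg (fun x hx => (hT _ x hx).2.2)
    have hdiv' : ¬ Summable (fun k => ∑ x ∈ T' k, u' k x) := fun h =>
      hdiv ((summable_nat_add_iff k₀).mp h)
    rw [not_summable_iff_tendsto_nat_atTop_of_nonneg hw0] at hdiv'
    have hT'R : ∀ k, ∀ x ∈ T' k, 3 * ((R : ℤ) + 1) ≤ x := by
      intro k x hx
      have h1 := (hT (k + k₀) x hx).2.1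
      have h2 : (2 : ℤ) ^ k₀ ≤ 2 ^ (k + k₀) := pow_le_pow_right₀ (by norm_num) (by omega)
      omega
    have hXm : ∀ n, Measurable (XX (W R) g n T' u') := by
      intro n
      unfold XX Zf
      apply Finset.measurable_sum
      intro k _
      apply Finset.measurable_sum
      intro x _
      exact (measurable_const.indicator (h.Wmeas R x)).const_mul _
    set Dd : ℕ → Set Ω := fun M => {ω | ∃ n : ℕ, (M : ℝ) ≤ XX (W R) g n T' u' ω} with hDd
    have hDm : ∀ M, MeasurableSet (Dd M) := by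
      intro M
      have : Dd M = ⋃ n : ℕ, {ω : Ω | (M : ℝ) ≤ XX (W R) g n T' u' ω} := by
        ext ω
        simp only [Set.mem_iUnion]
        rfl
      rw [this]
      apply MeasurableSet.iUnion
      intro n
      exact measurableSet_le measurable_const (hXm n)
    have hDanti : Antitone Dd := by
      rintro M M' hMM ω ⟨n, h⟩
      refine ⟨n, le_trans ?_ h⟩
      exact_mod_cast hMM
    have hBm : MeasurableSet B := h.Omeas R s
    -- each event has a large conditional probability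
    have h1 : ∀ M, c₂ * μ.real B ≤ μ.real (B ∩ Dd M) := by
      intro M
      obtain ⟨n, hn⟩ := (tendsto_atTop.mp hdiv' (max 1 (2 * M / c))).exists
      have hn1 := (le_max_left _ _).trans hn
      have hn2 := (le_max_right _ _).trans hn
      have h2 := block h R s n T' u'
        (fun k hk x hx => ⟨hT'R k x hx, (hT _ x hx).2.2⟩)
        (fun j k hjk _ x hx y hy => hsep _ _ (by omega) x hx y hy)
        (fun k _ => hen _) hn1
      refine h2.trans (measureReal_mono ?_ (measure_ne_top _ _))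
      rintro ω ⟨hω1, hω2⟩
      refine ⟨hω1, n, le_trans ?_ hω2⟩
      rw [div_le_iff₀ hc] at hn2
      rw [le_div_iff₀ (by norm_num : (0:ℝ) < 2)]
      linarith
    -- the limit
    have h3 : c₂ * μ.real B ≤ μ.real (⋂ M, B ∩ Dd M) := by
      have ht := tendsto_measure_iInter_atTop (μ := μ) (s := fun M => B ∩ Dd M)
        (fun M => (hBm.inter (hDm M)).nullMeasurableSet)
        (fun M M' h => Set.inter_subset_inter_right _ (hDanti h)) ⟨0, measure_ne_top _ _⟩
      have ht2 := (ENNReal.tendsto_toReal (measure_ne_top μ _)).comp ht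
      exact ge_of_tendsto' ht2 h1
    refine h3.trans (measureReal_mono ?_ (measure_ne_top _ _))
    intro ω hω
    rw [Set.mem_iInter] at hω
    refine ⟨(hω 0).1, ?_⟩
    -- finitely many visited points: bounded sums
    show Set.Infinite _
    intro hfin
    obtain ⟨A, hA⟩ := hfin.bddAbove
    obtain ⟨k₁, hk₁⟩ : ∃ k₁ : ℕ, A < 2 ^ k₁ := pow_unbounded_of_one_lt A (by norm_num)
    set b : ℕ → ℝ := fun k => ∑ x ∈ T' k, u' k x / g x with hb'
    have hb0 : ∀ k, 0 ≤ b k := fun k => Finset.sum_nonneg (fun x hx =>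
      div_nonneg (hT _ x hx).2.2 (h.sys.gpos x (hT _ x hx).1).le)
    have hbound : ∀ n : ℕ, XX (W R) g n T' u' ω ≤ ∑ k ∈ range k₁, b k := by
      intro n
      have h4 : ∀ k, Zf (W R) g (T' k) (u' k) ω ≤ if k < k₁ then b k else 0 := by
        intro k
        split_ifs with hk
        · exact Zf_le (fun x hx => h.sys.gpos x (hT _ x hx).1) (fun x hx => (hT _ x hx).2.2) _ _
        · apply le_of_eq
          unfold Zf
          apply Finset.sum_eq_zero
          intro x hx
          have h5 : ω ∉ W R x := by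
            intro hU
            have h7 := h.WV R x hU
            have h8 : x ≤ A := hA ⟨⟨k + k₀, hx⟩, h7⟩
            have h9 := (hT (k + k₀) x hx).2.1
            have h10 : (2 : ℤ) ^ k₁ ≤ 2 ^ (k + k₀) := pow_le_pow_right₀ (by norm_num) (by omega)
            omega
          rw [Set.indicator_of_notMem h5, mul_zero]
      unfold XX
      calc ∑ k ∈ range n, Zf (W R) g (T' k) (u' k) ω
          ≤ ∑ k ∈ range n, (if k < k₁ then b k else 0) := Finset.sum_le_sum (fun k _ => h4 k)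
        _ = ∑ k ∈ (range n).filter (· < k₁), b k := by rw [Finset.sum_filter]
        _ ≤ ∑ k ∈ range k₁, b k := by
            apply Finset.sum_le_sum_of_subset_of_nonneg
            · intro k hk
              rw [Finset.mem_range]
              exact (Finset.mem_filter.mp hk).2
            · intro k _ _
              exact hb0 k
    obtain ⟨M, hM⟩ := exists_nat_gt (∑ k ∈ range k₁, b k)
    obtain ⟨n, h11⟩ := (hω M).2
    have := hbound n
    linarith
  have h0 := TH868.CT.zero_one μ (Alg_isSetAlgebra h) (Alg_meas h) hEm hc₂0 key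
  rw [measureReal_def, ENNReal.toReal_eq_zero_iff] at h0
  rcases h0 with h0 | h0
  · rw [ae_iff]
    exact h0
  · exact absurd h0 (measure_ne_top _ _)

/-- almost optimal weights -/
theorem cap_witness (h : Sys μ V g K c C) {S : Set ℤ} (hS : ∀ x ∈ S, 1 ≤ x) :
    ∃ (T : Finset ℤ) (u : ℤ → ℝ), (∀ x ∈ T, x ∈ S ∧ 0 ≤ u x) ∧ ∑ x ∈ T, u x = cap K S ∧
      en K T u ≤ 2 * ∑ x ∈ T, u x := by
  rcases (cap_nonneg h hS).eq_or_lt with h0 | h0
  · refine ⟨∅, 0, by simp, ?_, ?_⟩
    · rw [← h0]; simp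
    · unfold en; simp
  · have hlt : cap K S / 2 < cap K S := by linarith
    have hne : {r | ∃ (T : Finset ℤ) (v : ℤ → ℝ), (∀ x ∈ T, x ∈ S ∧ 0 ≤ v x) ∧
        ∑ x ∈ T, v x = 1 ∧ r = 1 / en K T v}.Nonempty := by
      by_contra hemp
      rw [Set.not_nonempty_iff_eq_empty] at hemp
      unfold cap at h0
      rw [hemp, Real.sSup_empty] at h0
      exact lt_irrefl _ h0
    obtain ⟨r, ⟨T, v, h1, h2, rfl⟩, h3⟩ := exists_lt_of_lt_csSup hne hlt
    have hen := en_ge h (S := T) (fun x hx => hS x (h1 x hx).1) (v := v) (fun x hx => (h1 x hx).2)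
    rw [h2] at hen
    have hen0 : 0 < en K T v := by linarith
    refine ⟨T, fun x => cap K S * v x, fun x hx => ⟨(h1 x hx).1,
      mul_nonneg h0.le (h1 x hx).2⟩, ?_, ?_⟩
    · rw [← Finset.mul_sum, h2, mul_one]
    · rw [← Finset.mul_sum, h2, mul_one]
      have e : en K T (fun x => cap K S * v x) = cap K S * (cap K S * en K T v) := by
        unfold en
        simp only [Finset.mul_sum]
        apply Finset.sum_congr rfl
        intro x _
        apply Finset.sum_congr rfl
        intro y _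
        ring
      rw [e]
      have h4 : cap K S / 2 < 1 / en K T v := h3
      rw [lt_div_iff₀ hen0] at h4
      nlinarith

/-- the dyadic pieces -/
def pc (S : Set ℤ) (k : ℕ) : Set ℤ := {x | x ∈ S ∧ (2 : ℤ) ^ k ≤ x ∧ x < 2 ^ (k + 1)}

theorem pc_pos {S : Set ℤ} {k : ℕ} : ∀ x ∈ pc S k, 1 ≤ x := by
  rintro x ⟨-, h, -⟩
  have : (1 : ℤ) ≤ 2 ^ k := one_le_pow₀ (by norm_num)
  omega

theorem wiener_div (h : Sys2 μ V g K c C D O W) {S : Set ℤ}
    (hdiv : ¬ Summable (fun k => cap K (pc S k))) :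
    ∀ᵐ ω ∂μ, {x : ℤ | x ∈ S ∧ ω ∈ V x}.Infinite := by
  -- choose the parity
  obtain ⟨p, hp⟩ : ∃ p : ℕ, ¬ Summable (fun k => cap K (pc S (2 * k + p))) := by
    by_contra hcon
    push Not at hcon
    exact hdiv (Summable.even_add_odd (hcon 0) (hcon 1))
  choose T u h1 h2 h3 using fun k => cap_witness h.sys (S := pc S (2 * k + p)) pc_pos
  have hdiv : ¬ Summable (fun k => ∑ x ∈ T k, u k x) := by
    simp only [h2]
    exact hp
  have hmain := div_main h (T := T) (u := u)
    (fun k x hx => by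
      obtain ⟨⟨hx1, hx2, hx3⟩, hx4⟩ := h1 k x hx
      have h4 : (1 : ℤ) ≤ 2 ^ (2 * k + p) := one_le_pow₀ (by norm_num)
      have h5 : (2 : ℤ) ^ k ≤ 2 ^ (2 * k + p) := pow_le_pow_right₀ (by norm_num) (by omega)
      exact ⟨by omega, by omega, hx4⟩)
    (fun j k hjk x hx y hy => by
      obtain ⟨⟨hx1, hx2, hx3⟩, hx4⟩ := h1 j x hx
      obtain ⟨⟨hy1, hy2, hy3⟩, hy4⟩ := h1 k y hy
      have h5 : (2 : ℤ) ^ (2 * j + p + 2) ≤ 2 ^ (2 * k + p) :=
        pow_le_pow_right₀ (by norm_num) (by omega)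
      have h6 : (2 : ℤ) ^ (2 * j + p + 2) = 2 * 2 ^ (2 * j + p + 1) := by ring
      omega)
    h3 hdiv
  filter_upwards [hmain] with ω hω
  refine hω.mono ?_
  rintro x ⟨⟨k, hk⟩, hC⟩
  exact ⟨(h1 k x hk).1.1, hC⟩

theorem wiener_conv (h : Sys μ V g K c C) {S : Set ℤ} (hS : ∀ x ∈ S, 1 ≤ x)
    (hsum : Summable (fun k => cap K (pc S k))) :
    ∀ᵐ ω ∂μ, {x : ℤ | x ∈ S ∧ ω ∈ V x}.Finite := by
  have hc := h.hc
  have hC := h.hC
  have h1 : (∑' k, μ {ω | ∃ x ∈ pc S k, ω ∈ V x}) ≠ ⊤ := by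
    have h2 : ∀ k, μ {ω | ∃ x ∈ pc S k, ω ∈ V x} ≤
        ENNReal.ofReal (2 * (C / c) * cap K (pc S k)) := by
      intro k
      rw [← ENNReal.ofReal_toReal (measure_ne_top μ {ω | ∃ x ∈ pc S k, ω ∈ V x})]
      exact ENNReal.ofReal_le_ofReal (cap_main h (S := pc S k) pc_pos).2
    have h3 : Summable (fun k => 2 * (C / c) * cap K (pc S k)) := hsum.mul_left _
    refine ne_top_of_le_ne_top ?_ (ENNReal.tsum_le_tsum h2)
    exact h3.tsum_ofReal_ne_top
  filter_upwards [ae_eventually_notMem h1] with ω hω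
  rw [eventually_atTop] at hω
  obtain ⟨k₀, hk₀⟩ := hω
  apply (Set.finite_Icc (1 : ℤ) (2 ^ k₀)).subset
  rintro x ⟨hx, hxC⟩
  refine ⟨hS x hx, ?_⟩
  by_contra hlt
  push Not at hlt
  have hx1 := hS x hx
  -- the dyadic piece of `x`
  have hpos : x.toNat ≠ 0 := by omega
  set k := Nat.log 2 x.toNat with hk
  have h4 : 2 ^ k ≤ x.toNat := Nat.pow_log_le_self 2 hpos
  have h5 : x.toNat < 2 ^ (k + 1) := Nat.lt_pow_succ_log_self (by norm_num) _
  have h6 : (2 : ℤ) ^ k ≤ x := by
    have : ((2 ^ k : ℕ) : ℤ) ≤ (x.toNat : ℤ) := by exact_mod_cast h4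
    push_cast at this
    omega
  have h7 : x < (2 : ℤ) ^ (k + 1) := by
    have : (x.toNat : ℤ) < ((2 ^ (k + 1) : ℕ) : ℤ) := by exact_mod_cast h5
    push_cast at this
    omega
  have h8 : k₀ ≤ k := by
    by_contra hcon
    push Not at hcon
    have : (2 : ℤ) ^ (k + 1) ≤ 2 ^ k₀ := pow_le_pow_right₀ (by norm_num) (by omega)
    omega
  exact hk₀ k h8 ⟨x, ⟨hx, h6, h7⟩, hxC⟩

/-! ### Independent copies -/

theorem gen_eval {k : ℕ} (i : Fin k) {A : Set Ω}
    (hA : MeasurableSet[MeasurableSpace.generateFrom (Alg O)] A) :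
    MeasurableSet[MeasurableSpace.generateFrom
      (Alg (fun N (ω : Fin k → Ω) (j : Fin k) => O N (ω j)))] {ω : Fin k → Ω | ω i ∈ A} := by
  induction A, hA using MeasurableSpace.generateFrom_induction with
  | hC A hA _ =>
    obtain ⟨N, s, rfl⟩ := hA
    exact MeasurableSpace.measurableSet_generateFrom ⟨N, {q | q i ∈ s}, rfl⟩
  | empty =>
    have e : {ω : Fin k → Ω | ω i ∈ (∅ : Set Ω)} = ∅ := by
      ext ω; simp
    rw [e]
    exact @MeasurableSet.empty _ (MeasurableSpace.generateFrom _)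
  | compl A _ ih => exact ih.compl
  | iUnion f _ ih =>
    have e : {ω : Fin k → Ω | ω i ∈ ⋃ n, f n} = ⋃ n, {ω : Fin k → Ω | ω i ∈ f n} := by
      ext ω; simp
    rw [e]
    exact MeasurableSet.iUnion ih

theorem pi_pi' (k : ℕ) (A : Fin k → Set Ω) :
    (Measure.pi fun _ : Fin k => μ) {ω | ∀ i, ω i ∈ A i} = ∏ i, μ (A i) := by
  have e : ({ω | ∀ i, ω i ∈ A i} : Set (Fin k → Ω)) = Set.pi Set.univ A := by
    ext ω
    simp
  rw [e, Measure.pi_pi]

/-- **Independent copies.** -/
theorem Sys2.pow [Countable β] (h : Sys2 μ V g K c C D O W) (k : ℕ) :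
    Sys2 (Measure.pi fun _ : Fin k => μ) (Vk k V) (fun x => g x ^ k) (fun x y => K x y ^ k)
      (c ^ k) (C ^ k) (D ^ k) (fun N (ω : Fin k → Ω) (j : Fin k) => O N (ω j))
      (fun R x => Vk k (W R) x) where
  sys := h.sys.pow k
  hD := one_le_pow₀ h.hD
  far x y hx hxy := pow_le_pow_left₀
    (zero_le_one.trans (h.sys.Kge x y hx (by omega))) (h.far x y hx hxy) k
  Omeas N s := by
    have e : (fun (ω : Fin k → Ω) (j : Fin k) => O N (ω j)) ⁻¹' s =
        ⋃ q ∈ s, {ω : Fin k → Ω | ∀ i, ω i ∈ O N ⁻¹' {q i}} := by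
      ext ω
      simp only [Set.mem_preimage, Set.mem_iUnion, exists_prop, Set.mem_ofPred_eq,
        Set.mem_singleton_iff]
      constructor
      · intro hω
        exact ⟨_, hω, fun i => rfl⟩
      · rintro ⟨q, hq, hω⟩
        have : (fun j => O N (ω j)) = q := funext hω
        rw [this]
        exact hq
    rw [e]
    exact MeasurableSet.biUnion (Set.to_countable s) fun q _ => meas_all fun i => h.Omeas N _
  Ofac N M hNM := by
    obtain ⟨f, hf⟩ := h.Ofac N M hNM
    exact ⟨fun q j => f (q j), fun ω => funext fun j => hf (ω j)⟩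
  Vgen x := by
    have e : Vk k V x = ⋂ i, {ω : Fin k → Ω | ω i ∈ V x} := by
      ext ω; simp [Vk]
    rw [e]
    exact MeasurableSet.iInter fun i => gen_eval i (h.Vgen x)
  Wmeas R x := meas_all fun _ => h.Wmeas R x
  WV R x := fun _ hω i => h.WV R x (hω i)
  Wlow R x hx := by
    rw [Vk_real, ← mul_pow]
    exact pow_le_pow_left₀ (mul_nonneg h.sys.hc.le (h.sys.gpos x (by omega)).le) (h.Wlow R x hx) k
  ind R s x y := by
    have eA : ∀ A : Set Ω, ((fun (ω : Fin k → Ω) (j : Fin k) => O R (ω j)) ⁻¹' s ∩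
        {ω : Fin k → Ω | ∀ i, ω i ∈ A}) =
        ⋃ q : s, {ω : Fin k → Ω | ∀ i, ω i ∈ O R ⁻¹' {(q : Fin k → β) i} ∩ A} := by
      intro A
      ext ω
      simp only [Set.mem_inter_iff, Set.mem_preimage, Set.mem_iUnion, Set.mem_ofPred_eq,
        Set.mem_singleton_iff]
      constructor
      · rintro ⟨h1, h2⟩
        exact ⟨⟨_, h1⟩, fun i => ⟨rfl, h2 i⟩⟩
      · rintro ⟨⟨q, hq⟩, hω⟩
        have : (fun j => O R (ω j)) = q := funext fun i => (hω i).1
        refine ⟨?_, fun i => (hω i).2⟩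
        rw [this]
        exact hq
    have hmeas : ∀ A : Set Ω, MeasurableSet A →
        (Measure.pi fun _ : Fin k => μ) ((fun (ω : Fin k → Ω) (j : Fin k) => O R (ω j)) ⁻¹' s ∩
        {ω : Fin k → Ω | ∀ i, ω i ∈ A}) =
        ∑' q : s, ∏ i, μ (O R ⁻¹' {(q : Fin k → β) i} ∩ A) := by
      intro A hA
      rw [eA, measure_iUnion]
      · apply tsum_congr
        intro q
        exact pi_pi' k _
      · intro q q' hne
        rw [Function.onFun, Set.disjoint_left]
        intro ω h1 h2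
        apply hne
        apply Subtype.ext
        funext i
        have a1 : O R (ω i) = (q : Fin k → β) i := (h1 i).1
        have a2 : O R (ω i) = (q' : Fin k → β) i := (h2 i).1
        rw [← a1, ← a2]
      · intro q
        exact meas_all fun i => (h.Omeas R _).inter hA
    have e1 : Vk k (W R) x ∩ Vk k (W R) y = {ω : Fin k → Ω | ∀ i, ω i ∈ W R x ∩ W R y} := by
      ext ω
      simp only [Vk, Set.mem_inter_iff, Set.mem_ofPred_eq]
      exact forall_and.symm
    rw [e1, hmeas _ ((h.Wmeas R x).inter (h.Wmeas R y)), pi_pi' k (fun _ => W R x ∩ W R y)]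
    have e2 := hmeas Set.univ MeasurableSet.univ
    have e3 : ({ω : Fin k → Ω | ∀ i, ω i ∈ (Set.univ : Set Ω)} : Set (Fin k → Ω)) = Set.univ := by
      ext ω; simp
    rw [e3, Set.inter_univ] at e2
    rw [e2, ← ENNReal.tsum_mul_right]
    apply tsum_congr
    intro q
    rw [← Finset.prod_mul_distrib]
    apply Finset.prod_congr rfl
    intro i _
    rw [Set.inter_univ]
    exact h.ind R {(q : Fin k → β) i} x y

end Pool.Agent.U151.CB
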