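import Pool.Agent.U151.CB.Base
import Pool.Agent.U151.CB.Wien
import Pool.Agent.TH868.CT.Blk
import Pool.Agent.TH868.CT.Wien

/-!
The visited boundary points: almost independent scales.
-/

set_option autoImplicit false

namespace Pool.Agent.U151.CB

open H974 Finset H731C H389KP MeasureTheory Filter Topology

/-- `x` is visited with the edges outside of the half-box of radius `R`. -/
def WW (R : ℕ) (x : ℤ) : Set Conf := {ω | ∃ N : ℕ, TH868.CT.UF R x (ON N ω)}

theorem meas_WW (R : ℕ) (x : ℤ) : MeasurableSet (WW R x) := by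
  have e : WW R x = ⋃ N : ℕ, {ω | TH868.CT.UF R x (ON N ω)} := by
    ext ω
    simp only [Set.mem_iUnion]
    rfl
  rw [e]
  exact MeasurableSet.iUnion fun N => meas_ONk N fun F => TH868.CT.UF R x F

theorem ev_WW (ω : Conf) (R : ℕ) (x : ℤ) :
    ∀ᶠ N : ℕ in atTop, (TH868.CT.UF R x (ON N ω) ↔ ω ∈ WW R x) := by
  by_cases h : ω ∈ WW R x
  · obtain ⟨N, hN⟩ := h
    filter_upwards [eventually_ge_atTop N] with M hM
    exact ⟨fun _ => ⟨N, hN⟩, fun _ => TH868.CT.UF_mono (ON_mono hM ω) hN⟩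
  · exact Eventually.of_forall fun N => ⟨fun h1 => ⟨N, h1⟩, fun h1 => absurd h1 h⟩

theorem ind_WW (R : ℕ) (s : Set (Finset Edg)) (x y : ℤ) :
    perc.real (ON R ⁻¹' s ∩ (WW R x ∩ WW R y)) =
      perc.real (ON R ⁻¹' s) * perc.real (WW R x ∩ WW R y) := by
  have hON : ∀ ω : Conf, ∀ N : ℕ, R ≤ N → ON N ω ∩ VE (-(R : ℤ)) R 0 R = ON R ω := fun ω N h =>
    TH868.CT.ON_inter h ω
  have hm1 : MeasurableSet (ON R ⁻¹' s) := meas_ONk R fun F => F ∈ s
  have l1 : Tendsto (fun N : ℕ => P2 (VE (-(N : ℤ)) N 0 N)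
      (fun F => F ∩ VE (-(R : ℤ)) R 0 R ∈ s ∧ (TH868.CT.UF R x F ∧ TH868.CT.UF R y F))) atTop
      (𝓝 (perc.real (ON R ⁻¹' s ∩ (WW R x ∩ WW R y)))) :=
    lim_of (hm1.inter ((meas_WW R x).inter (meas_WW R y))) fun ω => by
      filter_upwards [ev_WW ω R x, ev_WW ω R y, eventually_ge_atTop R] with N h1 h2 h3
      rw [h1, h2, hON ω N h3]
      rfl
  have l2 : Tendsto (fun N : ℕ => P2 (VE (-(N : ℤ)) N 0 N)
      (fun F => F ∩ VE (-(R : ℤ)) R 0 R ∈ s)) atTop (𝓝 (perc.real (ON R ⁻¹' s))) :=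
    lim_of hm1 fun ω => by
      filter_upwards [eventually_ge_atTop R] with N h3
      rw [hON ω N h3]
      rfl
  have l3 : Tendsto (fun N : ℕ => P2 (VE (-(N : ℤ)) N 0 N)
      (fun F => TH868.CT.UF R x F ∧ TH868.CT.UF R y F)) atTop
      (𝓝 (perc.real (WW R x ∩ WW R y))) :=
    lim_of ((meas_WW R x).inter (meas_WW R y)) fun ω => by
      filter_upwards [ev_WW ω R x, ev_WW ω R y] with N h1 h2
      rw [h1, h2]
      rfl
  refine tendsto_nhds_unique l1 ((l2.mul l3).congr' ?_)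
  filter_upwards [eventually_ge_atTop R] with N hN
  have hsub : VE (-(R : ℤ)) R 0 R ⊆ VE (-(N : ℤ)) N 0 N := by
    rintro ⟨a, b, _ | _⟩ he
    · rw [mem_VE_false] at he ⊢; omega
    · rw [mem_VE_true] at he ⊢; omega
  have hind := Pr_indep (p := fun _ : Edg => (1/2 : ℝ)) (U := VE (-(N : ℤ)) N 0 N)
    (S := VE (-(R : ℤ)) R 0 R)
    (T := VE (-(N : ℤ)) N 0 N \ VE (-(R : ℤ)) R 0 R) hsub Finset.sdiff_subset Finset.disjoint_sdiff
    (A := fun F => F ∩ VE (-(R : ℤ)) R 0 R ∈ s)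
    (B := fun F => TH868.CT.UF R x F ∧ TH868.CT.UF R y F)
    (fun F _ => by
      rw [Finset.inter_assoc, Finset.inter_self])
    (fun F hF => by
      have e : ∀ x : ℤ, TH868.CT.UF R x F ↔
          TH868.CT.UF R x (F ∩ (VE (-(N : ℤ)) N 0 N \ VE (-(R : ℤ)) R 0 R)) := by
        intro x
        unfold TH868.CT.UF
        have : F \ VE (-(R : ℤ)) R 0 R =
            (F ∩ (VE (-(N : ℤ)) N 0 N \ VE (-(R : ℤ)) R 0 R)) \ VE (-(R : ℤ)) R 0 R := by
          ext e
          simp only [Finset.mem_sdiff, Finset.mem_inter]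
          constructor
          · rintro ⟨k1, k2⟩
            exact ⟨⟨k1, hF k1, k2⟩, k2⟩
          · rintro ⟨⟨k1, -, -⟩, k2⟩
            exact ⟨k1, k2⟩
        rw [← this]
      rw [← e x, ← e y])
  exact hind.symm

/-- **The visited boundary points.** -/
theorem base2 : ∃ c C : ℝ, Sys2 perc VV TH868.CT.ps TH868.CT.kern c C 2 ON WW := by
  obtain ⟨c0, C, h⟩ := base
  obtain ⟨c1, hc1, h1⟩ := TH868.CT.far_low
  set c := min c0 c1 with hc
  have hc0 : 0 < c := lt_min h.hc hc1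
  have hcc0 : c ≤ c0 := min_le_left _ _
  have hcc1 : c ≤ c1 := min_le_right _ _
  have hsys : Sys perc VV TH868.CT.ps TH868.CT.kern c C :=
    { hc := hc0
      hC := h.hC
      meas := h.meas
      gpos := h.gpos
      Kge := h.Kge
      Ksymm := h.Ksymm
      low := fun x hx => (mul_le_mul_of_nonneg_right hcc0 (h.gpos x hx).le).trans (h.low x hx)
      up := h.up
      two := h.two
      dom := fun T p x y hT hx hxy => by
        refine le_trans ?_ (h.dom T p x y hT hx hxy)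
        apply mul_le_mul_of_nonneg_right _ measureReal_nonneg
        apply mul_le_mul_of_nonneg_right hcc0
        have hy : 1 ≤ y := hx.trans hxy
        exact mul_nonneg (h.gpos y hy).le (zero_le_one.trans (h.Kge x y hx hy)) }
  refine ⟨c, C, hsys, by norm_num, fun x y hx hxy => TH868.CT.kern_far hx hxy,
    fun N s => meas_ONk N fun F => F ∈ s, ?_, ?_, meas_WW, ?_, ?_, ?_⟩
  · intro N M hNM
    exact ⟨fun F => F ∩ VE (-(N : ℤ)) N 0 N, fun ω => (TH868.CT.ON_inter hNM ω).symm⟩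
  · intro x
    have e : VV x = ⋃ N : ℕ, ON N ⁻¹' {F | TH868.CT.WX 0 F (x, 0)} := by
      ext ω
      rw [Set.mem_iUnion]
      constructor
      · intro h
        obtain ⟨N, hN⟩ := Cm_reach h
        exact ⟨N, hN⟩
      · rintro ⟨N, hN⟩
        have h2 : W (ON N ω) ((x, 0) : Vtx) := hN
        exact (reach_Cm h2).2
    rw [e]
    apply MeasurableSet.iUnion
    intro N
    exact MeasurableSpace.measurableSet_generateFrom ⟨N, _, rfl⟩
  · rintro R x ω ⟨N, hN⟩
    have h2 : W (ON N ω) ((x, 0) : Vtx) := TH868.CT.UF_WX hN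
    exact (reach_Cm h2).2
  · intro R x hx
    have hl : Tendsto (fun N : ℕ => P2 (VE (-(N : ℤ)) N 0 N) (TH868.CT.UF R x)) atTop
        (𝓝 (perc.real (WW R x))) := lim_of (meas_WW R x) fun ω => ev_WW ω R x
    refine ge_of_tendsto hl ?_
    filter_upwards [eventually_ge_atTop (40 * x).toNat] with N hN
    refine le_trans ?_ (h1 R x N (by omega) hx (by omega))
    exact mul_le_mul_of_nonneg_right hcc1 (TH868.CT.ps_pos (by omega)).le
  · intro R s x y
    have h2 := ind_WW R s x y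
    rw [measureReal_def, measureReal_def, measureReal_def, ← ENNReal.toReal_mul] at h2
    exact (ENNReal.toReal_eq_toReal_iff' (measure_ne_top _ _)
      (ENNReal.mul_ne_top (measure_ne_top _ _) (measure_ne_top _ _))).mp h2

end Pool.Agent.U151.CB
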