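import Pool.Agent.U151.CB.Base2

/-!
Common boundary points in dyadic intervals.
-/

set_option autoImplicit false

namespace Pool.Agent.U151.CB

open MeasureTheory Finset Filter Topology

/-- The probability to hit a set, bounded by the expected number of points after the first one. -/
theorem hit_count {Ω : Type*} [MeasurableSpace Ω] {μ : Measure Ω} [IsProbabilityMeasure μ]
    {V : ℤ → Set Ω} {g : ℤ → ℝ} {K : ℤ → ℤ → ℝ} {c C : ℝ} (h : Sys μ V g K c C)
    {S U : Finset ℤ} (hS : ∀ x ∈ S, 1 ≤ x) (hU : ∀ x ∈ U, 1 ≤ x) {L : ℝ}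
    (hL : ∀ x ∈ S, L ≤ ∑ y ∈ U.filter (x ≤ ·), g y * K x y) :
    c * L * μ.real {ω | ∃ x ∈ S, ω ∈ V x} ≤ C * ∑ y ∈ U, g y := by
  classical
  have hc := h.hc
  set A : ℤ → Set Ω := fun x => V x ∩ Pat V S x ∅ with hA
  have hAm : ∀ x, MeasurableSet (A x) := fun x => (h.meas x).inter (meas_Pat h.meas S x ∅)
  have hdisj : ∀ x ∈ S, ∀ y ∈ S, x < y → Disjoint (A x) (A y) := by
    intro x hx y _ hxy
    rw [Set.disjoint_left]
    rintro ω ⟨h1, -⟩ ⟨-, h2⟩
    have := (h2 x hx hxy).mp h1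
    simp at this
  have hpd : (↑S : Set ℤ).PairwiseDisjoint A := by
    intro x hx y hy hne
    rcases lt_or_gt_of_ne hne with hlt | hlt
    · exact hdisj x hx y hy hlt
    · exact (hdisj y hy x hx hlt).symm
  have hsum : ∑ x ∈ S, μ.real (A x) = μ.real {ω | ∃ x ∈ S, ω ∈ V x} := by
    rw [← measureReal_biUnion_finset hpd (fun x _ => hAm x)]
    congr 1
    ext ω
    simp only [Set.mem_iUnion, Set.mem_ofPred_eq, exists_prop]
    constructor
    · rintro ⟨x, hx, h1, -⟩
      exact ⟨x, hx, h1⟩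
    · rintro ⟨x0, hx0, hW0⟩
      have hne : (S.filter (fun x => ω ∈ V x)).Nonempty :=
        ⟨x0, Finset.mem_filter.mpr ⟨hx0, hW0⟩⟩
      have hmem := Finset.min'_mem _ hne
      set m := (S.filter (fun x => ω ∈ V x)).min' hne with hm
      rw [Finset.mem_filter] at hmem
      refine ⟨m, hmem.1, hmem.2, ?_⟩
      intro s hs hsm
      constructor
      · intro hWs
        exfalso
        have h9 : m ≤ s := by
          rw [hm]
          exact Finset.min'_le _ s (Finset.mem_filter.mpr ⟨hs, hWs⟩)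
        omega
      · intro hs0
        simp at hs0
  have k1 : ∀ y ∈ U, ∑ x ∈ S.filter (· ≤ y), μ.real (A x ∩ V y) ≤ C * g y := by
    intro y hy
    refine le_trans ?_ (h.up y (hU y hy))
    rw [← measureReal_biUnion_finset]
    · apply measureReal_mono
      · intro ω hω
        simp only [Set.mem_iUnion, exists_prop] at hω
        obtain ⟨x, -, h1⟩ := hω
        exact h1.2
      · exact measure_ne_top _ _
    · intro x hx z hz hne
      have h1 := hpd (Finset.mem_coe.mpr (Finset.mem_filter.mp (Finset.mem_coe.mp hx)).1)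
        (Finset.mem_coe.mpr (Finset.mem_filter.mp (Finset.mem_coe.mp hz)).1) hne
      exact h1.mono Set.inter_subset_left Set.inter_subset_left
    · intro x _
      exact (hAm x).inter (h.meas y)
  calc c * L * μ.real {ω | ∃ x ∈ S, ω ∈ V x} = ∑ x ∈ S, c * L * μ.real (A x) := by
        rw [← hsum, Finset.mul_sum]
    _ ≤ ∑ x ∈ S, ∑ y ∈ U.filter (x ≤ ·), μ.real (A x ∩ V y) := by
        apply Finset.sum_le_sum
        intro x hx
        calc c * L * μ.real (A x)
            ≤ c * (∑ y ∈ U.filter (x ≤ ·), g y * K x y) * μ.real (A x) := by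
              apply mul_le_mul_of_nonneg_right _ measureReal_nonneg
              exact mul_le_mul_of_nonneg_left (hL x hx) hc.le
          _ = ∑ y ∈ U.filter (x ≤ ·), c * (g y * K x y) * μ.real (A x) := by
              rw [Finset.mul_sum, Finset.sum_mul]
          _ ≤ _ := by
              apply Finset.sum_le_sum
              intro y hy
              exact h.dom S ∅ x y hS (hS x hx) (Finset.mem_filter.mp hy).2
    _ = ∑ y ∈ U, ∑ x ∈ S.filter (· ≤ y), μ.real (A x ∩ V y) := by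
        simp only [Finset.sum_filter]
        exact Finset.sum_comm
    _ ≤ ∑ y ∈ U, C * g y := Finset.sum_le_sum k1
    _ = C * ∑ y ∈ U, g y := by rw [Finset.mul_sum]

/-- `∑ d ^ (-k/3)`, `1 ≤ d ≤ n + 1` -/
noncomputable def sk (k n : ℕ) : ℝ := ∑ d ∈ range (n + 1), ((1 : ℝ) / ((d : ℝ) + 1)) ^ ((k : ℝ) / 3)

theorem sk_pos (k n : ℕ) : 0 < sk k n := by
  unfold sk
  apply Finset.sum_pos
  · intro d _
    positivity
  · exact ⟨0, by simp⟩

theorem sum_dist (n : ℕ) (φ : ℕ → ℝ) (hφ : ∀ d, 0 ≤ φ d) {x : ℤ} (hx : (n : ℤ) ≤ x ∧ x ≤ 2 * n) :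
    ∑ y ∈ Finset.Icc (n : ℤ) (2 * n), φ (|x - y|).toNat ≤ 2 * ∑ d ∈ range (n + 1), φ d := by
  have h1 : ∑ y ∈ Finset.Icc (n : ℤ) x, φ (|x - y|).toNat ≤ ∑ d ∈ range (n + 1), φ d := by
    have e : ∑ y ∈ Finset.Icc (n : ℤ) x, φ (|x - y|).toNat =
        ∑ d ∈ (Finset.Icc (n : ℤ) x).image (fun y => (|x - y|).toNat), φ d := by
      rw [Finset.sum_image]
      intro a ha b hb hab
      have ha' := Finset.mem_Icc.mp (Finset.mem_coe.mp ha)
      have hb' := Finset.mem_Icc.mp (Finset.mem_coe.mp hb)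
      simp only at hab
      rw [abs_of_nonneg (by omega), abs_of_nonneg (by omega)] at hab
      omega
    rw [e]
    apply Finset.sum_le_sum_of_subset_of_nonneg
    · intro d hd
      obtain ⟨y, hy, rfl⟩ := Finset.mem_image.mp hd
      rw [Finset.mem_Icc] at hy
      rw [Finset.mem_range, abs_of_nonneg (by omega)]
      omega
    · intro d _ _
      exact hφ d
  have h2 : ∑ y ∈ Finset.Icc x (2 * n), φ (|x - y|).toNat ≤ ∑ d ∈ range (n + 1), φ d := by
    have e : ∑ y ∈ Finset.Icc x (2 * n), φ (|x - y|).toNat =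
        ∑ d ∈ (Finset.Icc x (2 * n)).image (fun y => (|x - y|).toNat), φ d := by
      rw [Finset.sum_image]
      intro a ha b hb hab
      have ha' := Finset.mem_Icc.mp (Finset.mem_coe.mp ha)
      have hb' := Finset.mem_Icc.mp (Finset.mem_coe.mp hb)
      simp only at hab
      rw [abs_sub_comm x a, abs_sub_comm x b, abs_of_nonneg (by omega),
        abs_of_nonneg (by omega)] at hab
      omega
    rw [e]
    apply Finset.sum_le_sum_of_subset_of_nonneg
    · intro d hd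
      obtain ⟨y, hy, rfl⟩ := Finset.mem_image.mp hd
      rw [Finset.mem_Icc] at hy
      rw [Finset.mem_range, abs_sub_comm, abs_of_nonneg (by omega)]
      omega
    · intro d _ _
      exact hφ d
  have h3 : ∑ y ∈ Finset.Icc (n : ℤ) (2 * n), φ (|x - y|).toNat ≤
      ∑ y ∈ Finset.Icc (n : ℤ) x, φ (|x - y|).toNat +
      ∑ y ∈ Finset.Icc x (2 * n), φ (|x - y|).toNat := by
    classical
    rw [← Finset.sum_union_inter]
    refine le_trans ?_ (le_add_of_nonneg_right (Finset.sum_nonneg fun _ _ => hφ _))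
    apply Finset.sum_le_sum_of_subset_of_nonneg
    · intro y hy
      rw [Finset.mem_Icc] at hy
      rw [Finset.mem_union, Finset.mem_Icc, Finset.mem_Icc]
      omega
    · intro _ _ _
      exact hφ _
  linarith

theorem kern_pow (k : ℕ) {x y : ℤ} (hx : 1 ≤ x) (_hy : 1 ≤ y) :
    TH868.CT.kern x y ^ k =
      (((max x y : ℤ) : ℝ) / (((|x - y| : ℤ) : ℝ) + 1)) ^ ((k : ℝ) / 3) := by
  unfold TH868.CT.kern
  have h1 : (0:ℝ) ≤ ((max x y : ℤ) : ℝ) := by exact_mod_cast (le_max_of_le_left (by omega))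
  have h2 : (0:ℝ) ≤ ((|x - y| : ℤ) : ℝ) := by exact_mod_cast abs_nonneg _
  rw [← Real.rpow_natCast, ← Real.rpow_mul (by positivity)]
  congr 1
  ring

theorem ps_pow (k : ℕ) {n : ℤ} (hn : 0 ≤ n) :
    TH868.CT.ps n ^ k = (1 / ((n : ℝ) + 1)) ^ ((k : ℝ) / 3) := by
  unfold TH868.CT.ps
  have h1 : (0:ℝ) ≤ (n : ℝ) := by exact_mod_cast hn
  rw [← Real.rpow_natCast, ← Real.rpow_mul (by positivity)]
  congr 1
  ring

/-- The energy of the uniform weight on `[n, 2 n]`. -/
theorem en_unif (k : ℕ) {n : ℕ} (hn : 1 ≤ n) :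
    en (fun x y => TH868.CT.kern x y ^ k) (Finset.Icc (n : ℤ) (2 * n))
      (fun _ => 1 / ((n : ℝ) + 1)) ≤
    2 * (2 * (n : ℝ)) ^ ((k : ℝ) / 3) / ((n : ℝ) + 1) * sk k n := by
  have hn0 : (0:ℝ) < n := by exact_mod_cast hn
  have hcard : ((Finset.Icc (n : ℤ) (2 * n)).card : ℝ) = (n : ℝ) + 1 := by
    rw [Int.card_Icc]
    have : (2 * (n : ℤ) + 1 - n).toNat = n + 1 := by omega
    rw [this]
    push_cast
    ring
  unfold en
  have h1 : ∀ x ∈ Finset.Icc (n : ℤ) (2 * n), ∑ y ∈ Finset.Icc (n : ℤ) (2 * n),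
      1 / ((n : ℝ) + 1) * (1 / ((n : ℝ) + 1)) * TH868.CT.kern x y ^ k ≤
      1 / ((n : ℝ) + 1) * (1 / ((n : ℝ) + 1)) *
        ((2 * (n : ℝ)) ^ ((k : ℝ) / 3) * (2 * sk k n)) := by
    intro x hx
    rw [← Finset.mul_sum]
    apply mul_le_mul_of_nonneg_left _ (by positivity)
    have hx' := Finset.mem_Icc.mp hx
    have h2 : ∀ y ∈ Finset.Icc (n : ℤ) (2 * n), TH868.CT.kern x y ^ k ≤
        (2 * (n : ℝ)) ^ ((k : ℝ) / 3) *
          ((1 : ℝ) / ((((|x - y|).toNat : ℕ) : ℝ) + 1)) ^ ((k : ℝ) / 3) := by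
      intro y hy
      have hy' := Finset.mem_Icc.mp hy
      have e1 : (((|x - y|).toNat : ℕ) : ℝ) = ((|x - y| : ℤ) : ℝ) := by
        have : (((|x - y|).toNat : ℕ) : ℤ) = |x - y| := Int.toNat_of_nonneg (abs_nonneg _)
        exact_mod_cast this
      have h3 : (0:ℝ) ≤ ((|x - y| : ℤ) : ℝ) := by exact_mod_cast abs_nonneg _
      have h4 : ((max x y : ℤ) : ℝ) ≤ 2 * (n : ℝ) := by
        have : max x y ≤ 2 * (n : ℤ) := max_le hx'.2 hy'.2
        exact_mod_cast this
      have h5 : (0:ℝ) ≤ ((max x y : ℤ) : ℝ) := by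
        exact_mod_cast (le_max_of_le_left (by omega : 0 ≤ x))
      rw [kern_pow k (by omega) (by omega), e1, ← Real.mul_rpow (by positivity) (by positivity)]
      apply Real.rpow_le_rpow (by positivity) _ (by positivity)
      rw [mul_one_div]
      exact div_le_div_of_nonneg_right h4 (by positivity)
    refine (Finset.sum_le_sum h2).trans ?_
    rw [← Finset.mul_sum]
    apply mul_le_mul_of_nonneg_left _ (by positivity)
    exact sum_dist n (fun d => ((1 : ℝ) / ((d : ℝ) + 1)) ^ ((k : ℝ) / 3))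
      (fun d => by positivity) hx'
  refine (Finset.sum_le_sum h1).trans (le_of_eq ?_)
  rw [Finset.sum_const, nsmul_eq_mul, hcard]
  field_simp

/-- The expected number of points after a point of `[n, 2 n]`. -/
theorem after_sum (k : ℕ) {n : ℕ} (hn : 1 ≤ n) {x : ℤ} (hx : (n : ℤ) ≤ x ∧ x ≤ 2 * n) :
    (1/2 : ℝ) ^ ((k : ℝ) / 3) * sk k n ≤
      ∑ y ∈ (Finset.Icc (n : ℤ) (3 * n)).filter (x ≤ ·),
        TH868.CT.ps y ^ k * TH868.CT.kern x y ^ k := by
  classical
  have hn0 : (0:ℝ) < n := by exact_mod_cast hn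
  have hinj : Set.InjOn (fun d : ℕ => x + d) ↑(range (n + 1)) := by
    intro a _ b _ hab
    simp only at hab
    omega
  have hsub : (range (n + 1)).image (fun d : ℕ => x + d) ⊆
      (Finset.Icc (n : ℤ) (3 * n)).filter (x ≤ ·) := by
    intro y hy
    obtain ⟨d, hd, rfl⟩ := Finset.mem_image.mp hy
    rw [Finset.mem_range] at hd
    rw [Finset.mem_filter, Finset.mem_Icc]
    omega
  calc (1/2 : ℝ) ^ ((k : ℝ) / 3) * sk k n
      = ∑ d ∈ range (n + 1), (1/2 : ℝ) ^ ((k : ℝ) / 3) *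
          ((1 : ℝ) / ((d : ℝ) + 1)) ^ ((k : ℝ) / 3) := by
        unfold sk
        rw [Finset.mul_sum]
    _ ≤ ∑ d ∈ range (n + 1), TH868.CT.ps (x + d) ^ k * TH868.CT.kern x (x + d) ^ k := by
        apply Finset.sum_le_sum
        intro d _
        have hx0 : (1:ℝ) ≤ (x : ℝ) := by exact_mod_cast (by omega : 1 ≤ x)
        have hd0 : (0:ℝ) ≤ (d : ℝ) := Nat.cast_nonneg d
        have e1 : ((|x - (x + d)| : ℤ) : ℝ) = d := by
          have : |x - (x + (d : ℤ))| = d := by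
            rw [abs_sub_comm, add_sub_cancel_left, abs_of_nonneg (by omega)]
          exact_mod_cast this
        have e2 : ((max x (x + d) : ℤ) : ℝ) = (x : ℝ) + d := by
          rw [max_eq_right (by omega)]
          push_cast
          ring
        have e3 : ((x + (d : ℤ) : ℤ) : ℝ) = (x : ℝ) + d := by push_cast; ring
        rw [ps_pow k (by omega), kern_pow k (by omega) (by omega), e1, e2, e3,
          ← Real.mul_rpow (by positivity) (by positivity),
          ← Real.mul_rpow (by positivity) (by positivity)]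
        apply Real.rpow_le_rpow (by positivity) _ (by positivity)
        rw [div_mul_div_comm, div_mul_div_comm, div_le_div_iff₀ (by positivity) (by positivity)]
        nlinarith
    _ = ∑ y ∈ (range (n + 1)).image (fun d : ℕ => x + d),
          TH868.CT.ps y ^ k * TH868.CT.kern x y ^ k := by
        rw [Finset.sum_image hinj]
    _ ≤ _ := by
        apply Finset.sum_le_sum_of_subset_of_nonneg hsub
        intro y hy _
        rw [Finset.mem_filter, Finset.mem_Icc] at hy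
        exact mul_nonneg (pow_nonneg (TH868.CT.ps_pos (by omega)).le k)
          (pow_nonneg (TH868.CT.kern_nonneg (by omega) (by omega)) k)

theorem total_sum (k : ℕ) {n : ℕ} (hn : 1 ≤ n) :
    ∑ y ∈ Finset.Icc (n : ℤ) (3 * n), TH868.CT.ps y ^ k ≤
      3 * (n : ℝ) * (1 / (n : ℝ)) ^ ((k : ℝ) / 3) := by
  have hn0 : (1:ℝ) ≤ n := by exact_mod_cast hn
  have hcard : ((Finset.Icc (n : ℤ) (3 * n)).card : ℝ) = 2 * (n : ℝ) + 1 := by
    rw [Int.card_Icc]
    have : (3 * (n : ℤ) + 1 - n).toNat = 2 * n + 1 := by omega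
    rw [this]
    push_cast
    ring
  calc ∑ y ∈ Finset.Icc (n : ℤ) (3 * n), TH868.CT.ps y ^ k
      ≤ ∑ _y ∈ Finset.Icc (n : ℤ) (3 * n), (1 / (n : ℝ)) ^ ((k : ℝ) / 3) := by
        apply Finset.sum_le_sum
        intro y hy
        rw [Finset.mem_Icc] at hy
        rw [ps_pow k (by omega)]
        have : (n : ℝ) ≤ y := by exact_mod_cast hy.1
        have hy0 : (0:ℝ) ≤ y := by linarith
        apply Real.rpow_le_rpow (by positivity) _ (by positivity)
        exact one_div_le_one_div_of_le (by linarith) (by linarith)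
    _ = (2 * (n : ℝ) + 1) * (1 / (n : ℝ)) ^ ((k : ℝ) / 3) := by
        rw [Finset.sum_const, nsmul_eq_mul, hcard]
    _ ≤ _ := by
        apply mul_le_mul_of_nonneg_right _ (by positivity)
        linarith

/-- **Common points in dyadic intervals.** -/
theorem dyadic (k : ℕ) : ∃ c C : ℝ, 0 < c ∧ 0 < C ∧ ∀ n : ℕ, 1 ≤ n →
    c * ((n : ℝ) ^ (1 - (k : ℝ) / 3) / sk k n) ≤
      (Measure.pi fun _ : Fin k => H389KP.perc).real
        {ω | ∃ x ∈ Finset.Icc (n : ℤ) (2 * n), ω ∈ Vk k VV x} ∧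
    (Measure.pi fun _ : Fin k => H389KP.perc).real
        {ω | ∃ x ∈ Finset.Icc (n : ℤ) (2 * n), ω ∈ Vk k VV x} ≤
      C * ((n : ℝ) ^ (1 - (k : ℝ) / 3) / sk k n) := by
  obtain ⟨c0, C0, h0⟩ := base
  have h := h0.pow k
  have hc0 := h0.hc
  have hC0 := h0.hC
  have hc := h.hc
  have hC := h.hC
  refine ⟨c0 ^ k * c0 ^ k / C0 ^ k / (2 * 2 ^ ((k : ℝ) / 3)),
    3 * C0 ^ k / c0 ^ k * 2 ^ ((k : ℝ) / 3), by positivity, by positivity, ?_⟩
  intro n hn
  have hn0 : (0:ℝ) < n := by exact_mod_cast hn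
  have hsk := sk_pos k n
  have hS : ∀ x ∈ Finset.Icc (n : ℤ) (2 * n), 1 ≤ x := fun x hx => by
    rw [Finset.mem_Icc] at hx; omega
  have hcard : ((Finset.Icc (n : ℤ) (2 * n)).card : ℝ) = (n : ℝ) + 1 := by
    rw [Int.card_Icc]
    have : (2 * (n : ℤ) + 1 - n).toNat = n + 1 := by omega
    rw [this]
    push_cast
    ring
  have e1 : (n : ℝ) ^ (1 - (k : ℝ) / 3) = n / (n : ℝ) ^ ((k : ℝ) / 3) := by
    rw [Real.rpow_sub hn0, Real.rpow_one]
  constructor
  · have h1 := hit_low h (S := Finset.Icc (n : ℤ) (2 * n)) hS (v := fun _ => 1 / ((n : ℝ) + 1))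
      (fun _ _ => by positivity) (by
        rw [Finset.sum_const, nsmul_eq_mul, hcard]
        field_simp)
    refine le_trans ?_ h1
    have h2 := en_unif k hn
    have h3 : 0 < en (fun x y => TH868.CT.kern x y ^ k) (Finset.Icc (n : ℤ) (2 * n))
        (fun _ => 1 / ((n : ℝ) + 1)) := by
      have h4 := en_ge h hS (v := fun _ => 1 / ((n : ℝ) + 1)) (fun _ _ => by positivity)
      have h5 : ∑ _x ∈ Finset.Icc (n : ℤ) (2 * n), 1 / ((n : ℝ) + 1) = 1 := by
        rw [Finset.sum_const, nsmul_eq_mul, hcard]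
        field_simp
      rw [h5] at h4
      linarith
    have h6 : (c0 ^ k) ^ 2 / C0 ^ k /
        (2 * (2 * (n : ℝ)) ^ ((k : ℝ) / 3) / ((n : ℝ) + 1) * sk k n) ≤
        (c0 ^ k) ^ 2 / C0 ^ k / en (fun x y => TH868.CT.kern x y ^ k)
          (Finset.Icc (n : ℤ) (2 * n)) (fun _ => 1 / ((n : ℝ) + 1)) :=
      div_le_div_of_nonneg_left (by positivity) h3 h2
    refine le_trans ?_ h6
    rw [e1, Real.mul_rpow (by norm_num) hn0.le]
    have h7 : 0 < (n : ℝ) ^ ((k : ℝ) / 3) := by positivity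
    have h8 : (0:ℝ) < 2 ^ ((k : ℝ) / 3) := by positivity
    have e2 : (c0 ^ k) ^ 2 / C0 ^ k /
        (2 * (2 ^ ((k : ℝ) / 3) * (n : ℝ) ^ ((k : ℝ) / 3)) / ((n : ℝ) + 1) * sk k n) =
        c0 ^ k * c0 ^ k / C0 ^ k / (2 * 2 ^ ((k : ℝ) / 3)) *
          (((n : ℝ) + 1) / (n : ℝ) ^ ((k : ℝ) / 3) / sk k n) := by
      field_simp
    rw [e2]
    apply mul_le_mul_of_nonneg_left _ (by positivity)
    apply div_le_div_of_nonneg_right _ hsk.le
    apply div_le_div_of_nonneg_right _ h7.le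
    linarith
  · have h1 := hit_count h (S := Finset.Icc (n : ℤ) (2 * n)) (U := Finset.Icc (n : ℤ) (3 * n)) hS
      (fun x hx => by rw [Finset.mem_Icc] at hx; omega)
      (L := (1/2 : ℝ) ^ ((k : ℝ) / 3) * sk k n)
      (fun x hx => after_sum k hn (Finset.mem_Icc.mp hx))
    have h2 := total_sum k hn
    set P := (Measure.pi fun _ : Fin k => H389KP.perc).real
        {ω | ∃ x ∈ Finset.Icc (n : ℤ) (2 * n), ω ∈ Vk k VV x} with hP
    have h3 : c0 ^ k * ((1/2 : ℝ) ^ ((k : ℝ) / 3) * sk k n) * P ≤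
        C0 ^ k * (3 * (n : ℝ) * (1 / (n : ℝ)) ^ ((k : ℝ) / 3)) :=
      h1.trans (mul_le_mul_of_nonneg_left h2 hC.le)
    have e3 : (1 / (n : ℝ)) ^ ((k : ℝ) / 3) = 1 / (n : ℝ) ^ ((k : ℝ) / 3) := by
      rw [Real.div_rpow zero_le_one hn0.le, Real.one_rpow]
    have e4 : (1 / 2 : ℝ) ^ ((k : ℝ) / 3) = 1 / 2 ^ ((k : ℝ) / 3) := by
      rw [Real.div_rpow zero_le_one (by norm_num), Real.one_rpow]
    rw [e3, e4] at h3
    have h8 : (0:ℝ) < 2 ^ ((k : ℝ) / 3) := by positivity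
    have h7 : 0 < (n : ℝ) ^ ((k : ℝ) / 3) := by positivity
    have h9 : 0 < c0 ^ k * (1 / 2 ^ ((k : ℝ) / 3) * sk k n) := by positivity
    rw [mul_comm, ← le_div_iff₀ h9] at h3
    refine h3.trans (le_of_eq ?_)
    rw [e1]
    field_simp

end Pool.Agent.U151.CB
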