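import Pool.Agent.U151.CB.Est
import Mathlib.NumberTheory.Harmonic.Bounds

/-!
Final statements about the common visited boundary points of `k` independent paths.
-/

set_option autoImplicit false

namespace Pool.Agent.U151.CB

open MeasureTheory Finset Filter Topology

/-! ### The sums -/

theorem sk_one_le (k n : ℕ) : 1 ≤ sk k n := by
  unfold sk
  have h1 := Finset.single_le_sum
    (f := fun d : ℕ => ((1 : ℝ) / ((d : ℝ) + 1)) ^ ((k : ℝ) / 3))
    (fun d _ => by positivity) (Finset.mem_range.mpr (Nat.succ_pos n))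
  simpa using h1

theorem sum_two_thirds (N : ℕ) :
    ∑ d ∈ range N, ((1 : ℝ) / ((d : ℝ) + 1)) ^ ((2 : ℝ) / 3) ≤ 3 * (N : ℝ) ^ ((1 : ℝ) / 3) := by
  induction N with
  | zero => simp
  | succ N ih =>
    rw [Finset.sum_range_succ]
    set a : ℝ := ((N : ℝ) + 1) ^ ((1 : ℝ) / 3) with ha
    set b : ℝ := (N : ℝ) ^ ((1 : ℝ) / 3) with hb
    have ha0 : 0 < a := by positivity
    have hb0 : 0 ≤ b := by positivity
    have ha3 : a ^ 3 = (N : ℝ) + 1 := by
      rw [ha, ← Real.rpow_natCast, ← Real.rpow_mul (by positivity)]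
      norm_num
    have hb3 : b ^ 3 = (N : ℝ) := by
      rw [hb, ← Real.rpow_natCast, ← Real.rpow_mul (by positivity)]
      norm_num
    have hba : b ≤ a := Real.rpow_le_rpow (by positivity) (by linarith) (by norm_num)
    have e : ((1 : ℝ) / ((N : ℝ) + 1)) ^ ((2 : ℝ) / 3) = 1 / a ^ 2 := by
      rw [Real.div_rpow zero_le_one (by positivity), Real.one_rpow, ha, ← Real.rpow_natCast,
        ← Real.rpow_mul (by positivity)]
      norm_num
    rw [e]
    have h1 : 1 / a ^ 2 ≤ 3 * (a - b) := by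
      rw [div_le_iff₀ (by positivity)]
      have h2 : (a - b) * (a ^ 2 + a * b + b ^ 2) = 1 := by
        have : a ^ 3 - b ^ 3 = 1 := by rw [ha3, hb3]; ring
        linear_combination this
      have h3 : a ^ 2 + a * b + b ^ 2 ≤ 3 * a ^ 2 := by nlinarith
      have h4 : 0 ≤ a - b := by linarith
      nlinarith [mul_le_mul_of_nonneg_left h3 h4]
    push_cast
    rw [← ha]
    linarith

theorem sk_le_two {k : ℕ} (hk : k ≤ 2) (n : ℕ) :
    sk k n ≤ 3 * ((n : ℝ) + 1) ^ (1 - (k : ℝ) / 3) := by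
  have hk' : (k : ℝ) ≤ 2 := by exact_mod_cast hk
  have h1 : sk k n ≤ ((n : ℝ) + 1) ^ ((2 - (k : ℝ)) / 3) *
      ∑ d ∈ range (n + 1), ((1 : ℝ) / ((d : ℝ) + 1)) ^ ((2 : ℝ) / 3) := by
    unfold sk
    rw [Finset.mul_sum]
    apply Finset.sum_le_sum
    intro d hd
    have hd' : (d : ℝ) ≤ n := by
      rw [Finset.mem_range] at hd
      exact_mod_cast (by omega : d ≤ n)
    have hd0 : (0:ℝ) < (d : ℝ) + 1 := by positivity
    have e : ((1 : ℝ) / ((d : ℝ) + 1)) ^ ((k : ℝ) / 3) =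
        ((d : ℝ) + 1) ^ ((2 - (k : ℝ)) / 3) * ((1 : ℝ) / ((d : ℝ) + 1)) ^ ((2 : ℝ) / 3) := by
      rw [Real.div_rpow zero_le_one hd0.le, Real.div_rpow zero_le_one hd0.le, Real.one_rpow,
        Real.one_rpow, one_div, one_div, ← Real.rpow_neg hd0.le, ← Real.rpow_neg hd0.le,
        ← Real.rpow_add hd0]
      congr 1
      ring
    rw [e]
    apply mul_le_mul_of_nonneg_right _ (by positivity)
    exact Real.rpow_le_rpow (by positivity) (by linarith) (by linarith)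
  refine h1.trans ?_
  have h2 := sum_two_thirds (n + 1)
  calc ((n : ℝ) + 1) ^ ((2 - (k : ℝ)) / 3) *
        ∑ d ∈ range (n + 1), ((1 : ℝ) / ((d : ℝ) + 1)) ^ ((2 : ℝ) / 3)
      ≤ ((n : ℝ) + 1) ^ ((2 - (k : ℝ)) / 3) * (3 * (((n + 1 : ℕ) : ℝ)) ^ ((1 : ℝ) / 3)) :=
        mul_le_mul_of_nonneg_left h2 (by positivity)
    _ = 3 * (((n : ℝ) + 1) ^ ((2 - (k : ℝ)) / 3) * ((n : ℝ) + 1) ^ ((1 : ℝ) / 3)) := by
        push_cast
        ring
    _ = _ := by
        rw [← Real.rpow_add (by positivity)]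
        congr 2
        ring

theorem sk_three (n : ℕ) : sk 3 n = (harmonic (n + 1) : ℝ) := by
  unfold sk harmonic
  push_cast
  apply Finset.sum_congr rfl
  intro d _
  norm_num

theorem sk_three_low (n : ℕ) : Real.log ((n : ℝ) + 1) ≤ sk 3 n := by
  rw [sk_three]
  have h1 := log_add_one_le_harmonic (n + 1)
  refine le_trans ?_ h1
  push_cast
  exact Real.log_le_log (by positivity) (by linarith)

theorem sk_three_up (n : ℕ) : sk 3 n ≤ 1 + Real.log ((n : ℝ) + 1) := by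
  rw [sk_three]
  have h1 := harmonic_le_one_add_log (n + 1)
  push_cast at h1
  exact h1

theorem summable_k {k : ℕ} (hk : 4 ≤ k) :
    Summable fun d : ℕ => ((1 : ℝ) / ((d : ℝ) + 1)) ^ ((k : ℝ) / 3) := by
  have hk' : (4 : ℝ) ≤ k := by exact_mod_cast hk
  have h1 : Summable fun d : ℕ => 1 / (d : ℝ) ^ ((k : ℝ) / 3) :=
    Real.summable_one_div_nat_rpow.mpr (by linarith)
  have h2 := (summable_nat_add_iff 1).mpr h1
  refine h2.congr fun d => ?_
  rw [Real.div_rpow zero_le_one (by positivity), Real.one_rpow]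
  push_cast
  rfl

theorem sk_le_four {k : ℕ} (hk : 4 ≤ k) : ∃ C : ℝ, 1 ≤ C ∧ ∀ n, sk k n ≤ C :=
  ⟨∑' d : ℕ, ((1 : ℝ) / ((d : ℝ) + 1)) ^ ((k : ℝ) / 3),
    (sk_one_le k 0).trans ((summable_k hk).sum_le_tsum _ fun d _ => by positivity),
    fun n => (summable_k hk).sum_le_tsum _ fun d _ => by positivity⟩

/-! ### Hitting probabilities -/

/-- The law of `k` independent configurations. -/
noncomputable def Pk (k : ℕ) : Measure (Fin k → H389KP.Conf) :=
  Measure.pi fun _ : Fin k => H389KP.perc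

theorem capk (k : ℕ) : ∃ c C : ℝ, 0 < c ∧ 0 < C ∧ ∀ S : Set ℤ, (∀ x ∈ S, 1 ≤ x) →
    c * cap (fun x y => TH868.CT.kern x y ^ k) S ≤ (Pk k).real {ω | ∃ x ∈ S, ω ∈ Vk k VV x} ∧
    (Pk k).real {ω | ∃ x ∈ S, ω ∈ Vk k VV x} ≤
      C * cap (fun x y => TH868.CT.kern x y ^ k) S := by
  obtain ⟨c0, C0, h0⟩ := base
  have h := h0.pow k
  have hc := h.hc
  have hC := h.hC
  refine ⟨(c0 ^ k) ^ 2 / C0 ^ k, 2 * (C0 ^ k / c0 ^ k), by positivity, by positivity, ?_⟩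
  intro S hS
  exact cap_main h hS

theorem regimes_two {k : ℕ} (hk : k ≤ 2) : ∃ c : ℝ, 0 < c ∧ ∀ n : ℕ, 1 ≤ n →
    c ≤ (Pk k).real {ω | ∃ x ∈ Finset.Icc (n : ℤ) (2 * n), ω ∈ Vk k VV x} := by
  obtain ⟨c, C, hc, -, h⟩ := dyadic k
  have hk' : (k : ℝ) ≤ 2 := by exact_mod_cast hk
  refine ⟨c / (3 * 2 ^ (1 - (k : ℝ) / 3)), by positivity, fun n hn => ?_⟩
  have hn0 : (1:ℝ) ≤ n := by exact_mod_cast hn
  refine le_trans ?_ (h n hn).1
  have h1 := sk_le_two hk n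
  have h2 : ((n : ℝ) + 1) ^ (1 - (k : ℝ) / 3) ≤ 2 ^ (1 - (k : ℝ) / 3) *
      (n : ℝ) ^ (1 - (k : ℝ) / 3) := by
    rw [← Real.mul_rpow (by norm_num) (by positivity)]
    exact Real.rpow_le_rpow (by positivity) (by linarith) (by linarith)
  have hsk := sk_pos k n
  rw [div_eq_mul_inv]
  apply mul_le_mul_of_nonneg_left _ hc.le
  rw [inv_eq_one_div, div_le_div_iff₀ (by positivity) hsk]
  calc 1 * sk k n ≤ 3 * ((n : ℝ) + 1) ^ (1 - (k : ℝ) / 3) := by rw [one_mul]; exact h1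
    _ ≤ 3 * (2 ^ (1 - (k : ℝ) / 3) * (n : ℝ) ^ (1 - (k : ℝ) / 3)) := by linarith
    _ = _ := by ring

theorem regimes_three : ∃ c C : ℝ, 0 < c ∧ 0 < C ∧ ∀ n : ℕ, 1 ≤ n →
    c / Real.log ((n : ℝ) + 1) ≤
      (Pk 3).real {ω | ∃ x ∈ Finset.Icc (n : ℤ) (2 * n), ω ∈ Vk 3 VV x} ∧
    (Pk 3).real {ω | ∃ x ∈ Finset.Icc (n : ℤ) (2 * n), ω ∈ Vk 3 VV x} ≤
      C / Real.log ((n : ℝ) + 1) := by
  obtain ⟨c, C, hc, hC, h⟩ := dyadic 3
  refine ⟨c / 3, C, by positivity, hC, fun n hn => ?_⟩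
  have hn0 : (1:ℝ) ≤ n := by exact_mod_cast hn
  obtain ⟨h1, h2⟩ := h n hn
  have e : (n : ℝ) ^ (1 - ((3 : ℕ) : ℝ) / 3) = 1 := by norm_num
  rw [e] at h1 h2
  have hlog : (1:ℝ)/2 < Real.log ((n : ℝ) + 1) := by
    have h3 : Real.log 2 ≤ Real.log ((n : ℝ) + 1) := Real.log_le_log (by norm_num) (by linarith)
    have := Real.log_two_gt_d9
    linarith
  have hsk := sk_pos 3 n
  constructor
  · refine le_trans ?_ h1
    rw [mul_one_div, div_div]
    apply div_le_div_of_nonneg_left hc.le hsk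
    have := sk_three_up n
    linarith
  · refine h2.trans ?_
    rw [mul_one_div]
    exact div_le_div_of_nonneg_left hC.le (by linarith) (sk_three_low n)

theorem regimes_four {k : ℕ} (hk : 4 ≤ k) : ∃ c C : ℝ, 0 < c ∧ 0 < C ∧ ∀ n : ℕ, 1 ≤ n →
    c * (n : ℝ) ^ (1 - (k : ℝ) / 3) ≤
      (Pk k).real {ω | ∃ x ∈ Finset.Icc (n : ℤ) (2 * n), ω ∈ Vk k VV x} ∧
    (Pk k).real {ω | ∃ x ∈ Finset.Icc (n : ℤ) (2 * n), ω ∈ Vk k VV x} ≤
      C * (n : ℝ) ^ (1 - (k : ℝ) / 3) := by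
  obtain ⟨c, C, hc, hC, h⟩ := dyadic k
  obtain ⟨C1, hC1, h1⟩ := sk_le_four hk
  refine ⟨c / C1, C, by positivity, hC, fun n hn => ?_⟩
  have hn0 : (1:ℝ) ≤ n := by exact_mod_cast hn
  obtain ⟨h2, h3⟩ := h n hn
  have hsk := sk_pos k n
  have hpn : (0:ℝ) < (n : ℝ) ^ (1 - (k : ℝ) / 3) := by positivity
  constructor
  · refine le_trans ?_ h2
    rw [div_mul_eq_mul_div, ← mul_div_assoc]
    exact div_le_div_of_nonneg_left (by positivity) hsk (h1 n)
  · refine h3.trans ?_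
    apply mul_le_mul_of_nonneg_left _ hC.le
    exact div_le_self hpn.le (sk_one_le k n)

/-! ### Wiener's test -/

instance (k : ℕ) : IsProbabilityMeasure (Pk k) := by
  unfold Pk
  infer_instance

theorem wiener_k (k : ℕ) {S : Set ℤ} (hS : ∀ x ∈ S, 1 ≤ x) :
    (Summable (fun j : ℕ => cap (fun x y => TH868.CT.kern x y ^ k) (pc S j)) →
      ∀ᵐ ω ∂Pk k, {x : ℤ | x ∈ S ∧ ω ∈ Vk k VV x}.Finite) ∧
    (¬ Summable (fun j : ℕ => cap (fun x y => TH868.CT.kern x y ^ k) (pc S j)) →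
      ∀ᵐ ω ∂Pk k, {x : ℤ | x ∈ S ∧ ω ∈ Vk k VV x}.Infinite) := by
  obtain ⟨c0, C0, h0⟩ := base2
  have h := h0.pow k
  exact ⟨fun hs => wiener_conv h.sys hS hs, fun hs => wiener_div h hs⟩

/-- The energy of the uniform weight on `[n, 2 n)`. -/
theorem en_unif' (k : ℕ) {n : ℕ} (hn : 1 ≤ n) :
    en (fun x y => TH868.CT.kern x y ^ k) (Finset.Ico (n : ℤ) (2 * n))
      (fun _ => 1 / (n : ℝ)) ≤
    2 * (2 * (n : ℝ)) ^ ((k : ℝ) / 3) / (n : ℝ) * sk k n := by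
  have hn0 : (0:ℝ) < n := by exact_mod_cast hn
  have hcard : ((Finset.Ico (n : ℤ) (2 * n)).card : ℝ) = (n : ℝ) := by
    rw [Int.card_Ico]
    have : (2 * (n : ℤ) - n).toNat = n := by omega
    rw [this]
  unfold en
  have h1 : ∀ x ∈ Finset.Ico (n : ℤ) (2 * n), ∑ y ∈ Finset.Ico (n : ℤ) (2 * n),
      1 / (n : ℝ) * (1 / (n : ℝ)) * TH868.CT.kern x y ^ k ≤
      1 / (n : ℝ) * (1 / (n : ℝ)) *
        ((2 * (n : ℝ)) ^ ((k : ℝ) / 3) * (2 * sk k n)) := by
    intro x hx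
    rw [← Finset.mul_sum]
    apply mul_le_mul_of_nonneg_left _ (by positivity)
    have hx' := Finset.mem_Ico.mp hx
    have h2 : ∀ y ∈ Finset.Ico (n : ℤ) (2 * n), TH868.CT.kern x y ^ k ≤
        (2 * (n : ℝ)) ^ ((k : ℝ) / 3) *
          ((1 : ℝ) / ((((|x - y|).toNat : ℕ) : ℝ) + 1)) ^ ((k : ℝ) / 3) := by
      intro y hy
      have hy' := Finset.mem_Ico.mp hy
      have e1 : (((|x - y|).toNat : ℕ) : ℝ) = ((|x - y| : ℤ) : ℝ) := by
        have : (((|x - y|).toNat : ℕ) : ℤ) = |x - y| := Int.toNat_of_nonneg (abs_nonneg _)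
        exact_mod_cast this
      have h3 : (0:ℝ) ≤ ((|x - y| : ℤ) : ℝ) := by exact_mod_cast abs_nonneg _
      have h4 : ((max x y : ℤ) : ℝ) ≤ 2 * (n : ℝ) := by
        have : max x y ≤ 2 * (n : ℤ) := max_le hx'.2.le hy'.2.le
        exact_mod_cast this
      have h5 : (0:ℝ) ≤ ((max x y : ℤ) : ℝ) := by
        exact_mod_cast (le_max_of_le_left (by omega : 0 ≤ x))
      rw [kern_pow k (by omega) (by omega), e1, ← Real.mul_rpow (by positivity) (by positivity)]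
      apply Real.rpow_le_rpow (by positivity) _ (by positivity)
      rw [mul_one_div]
      exact div_le_div_of_nonneg_right h4 (by positivity)
    refine (Finset.sum_le_sum h2).trans ?_
    rw [← Finset.mul_sum]
    apply mul_le_mul_of_nonneg_left _ (by positivity)
    refine le_trans ?_ (sum_dist n (fun d => ((1 : ℝ) / ((d : ℝ) + 1)) ^ ((k : ℝ) / 3))
      (fun d => by positivity) (x := x) ⟨hx'.1, hx'.2.le⟩)
    apply Finset.sum_le_sum_of_subset_of_nonneg Finset.Ico_subset_Icc_self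
    intro _ _ _
    positivity
  refine (Finset.sum_le_sum h1).trans (le_of_eq ?_)
  rw [Finset.sum_const, nsmul_eq_mul, hcard]
  field_simp

theorem cap_pos_low {k : ℕ} (hk : k ≤ 3) (j : ℕ) :
    1 / (8 * ((j : ℝ) + 2)) ≤ cap (fun x y => TH868.CT.kern x y ^ k) (pc {x | 1 ≤ x} j) := by
  obtain ⟨c0, C0, h0⟩ := base
  have h := h0.pow k
  have hn : 1 ≤ 2 ^ j := Nat.one_le_two_pow
  have hn0 : (0:ℝ) < ((2 ^ j : ℕ) : ℝ) := by positivity
  set n : ℕ := 2 ^ j with hndef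
  have hcard : ((Finset.Ico (n : ℤ) (2 * n)).card : ℝ) = (n : ℝ) := by
    rw [Int.card_Ico]
    have : (2 * (n : ℤ) - n).toNat = n := by omega
    rw [this]
  have hS : ∀ x ∈ Finset.Ico (n : ℤ) (2 * n), 1 ≤ x := fun x hx => by
    rw [Finset.mem_Ico] at hx; omega
  have hsum : ∑ _x ∈ Finset.Ico (n : ℤ) (2 * n), 1 / (n : ℝ) = 1 := by
    rw [Finset.sum_const, nsmul_eq_mul, hcard]
    field_simp
  have h1 := le_cap h (S := pc {x | 1 ≤ x} j) pc_pos (T := Finset.Ico (n : ℤ) (2 * n))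
    (v := fun _ => 1 / (n : ℝ)) (fun x hx => by
      have hx' := Finset.mem_Ico.mp hx
      have e1 : (n : ℤ) = 2 ^ j := by rw [hndef]; push_cast; rfl
      refine ⟨⟨hS x hx, ?_, ?_⟩, by positivity⟩
      · rw [← e1]; exact hx'.1
      · rw [pow_succ, ← e1]; linarith [hx'.2]) hsum
  refine le_trans ?_ h1
  have h2 : en (fun x y => TH868.CT.kern x y ^ k) (Finset.Ico (n : ℤ) (2 * n))
      (fun _ => 1 / (n : ℝ)) ≤ en (fun x y => TH868.CT.kern x y ^ 3)
        (Finset.Ico (n : ℤ) (2 * n)) (fun _ => 1 / (n : ℝ)) := by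
    unfold en
    apply Finset.sum_le_sum
    intro x hx
    apply Finset.sum_le_sum
    intro y hy
    apply mul_le_mul_of_nonneg_left _ (by positivity)
    exact pow_le_pow_right₀ (TH868.CT.kern_ge_one (hS x hx) (hS y hy)) hk
  have h3 := en_unif' 3 hn
  have h4 : 0 < en (fun x y => TH868.CT.kern x y ^ k) (Finset.Ico (n : ℤ) (2 * n))
      (fun _ => 1 / (n : ℝ)) := by
    have h5 := en_ge h hS (v := fun _ => 1 / (n : ℝ)) (fun _ _ => by positivity)
    rw [hsum] at h5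
    linarith
  apply one_div_le_one_div_of_le h4
  refine (h2.trans h3).trans ?_
  have h6 := sk_three_up n
  have h7 : Real.log ((n : ℝ) + 1) ≤ (j : ℝ) + 1 := by
    have h8 : (n : ℝ) + 1 ≤ 2 ^ (j + 1) := by
      have : n + 1 ≤ 2 ^ (j + 1) := by rw [pow_succ, ← hndef]; omega
      exact_mod_cast this
    calc Real.log ((n : ℝ) + 1) ≤ Real.log (2 ^ (j + 1)) := Real.log_le_log (by positivity) h8
      _ = ((j : ℝ) + 1) * Real.log 2 := by rw [Real.log_pow]; push_cast; ring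
      _ ≤ ((j : ℝ) + 1) * 1 := by
          apply mul_le_mul_of_nonneg_left _ (by positivity)
          have := Real.log_two_lt_d9
          linarith
      _ = _ := mul_one _
  have e2 : 2 * (2 * (n : ℝ)) ^ (((3 : ℕ) : ℝ) / 3) / (n : ℝ) * sk 3 n = 4 * sk 3 n := by
    have : (((3 : ℕ) : ℝ) / 3) = 1 := by norm_num
    rw [this, Real.rpow_one]
    field_simp
    ring
  rw [e2]
  linarith

theorem common_inf {k : ℕ} (hk : k ≤ 3) :
    ∀ᵐ ω ∂Pk k, {x : ℤ | 1 ≤ x ∧ ω ∈ Vk k VV x}.Infinite := by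
  refine (wiener_k k (S := {x | 1 ≤ x}) (fun x hx => hx)).2 fun hs => ?_
  have h1 : Summable fun j : ℕ => 1 / (8 * ((j : ℝ) + 2)) :=
    Summable.of_nonneg_of_le (fun j => by positivity) (fun j => cap_pos_low hk j) hs
  have h2 : Summable fun j : ℕ => 1 / ((j : ℝ) + 2) := by
    refine (h1.mul_left 8).congr fun j => ?_
    field_simp
  have h3 : Summable fun j : ℕ => 1 / ((j : ℝ)) := by
    rw [← summable_nat_add_iff 2]
    refine h2.congr fun j => ?_
    push_cast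
    rfl
  exact Real.not_summable_one_div_natCast h3

theorem common_fin {k : ℕ} (hk : 4 ≤ k) :
    ∀ᵐ ω ∂Pk k, {x : ℤ | 1 ≤ x ∧ ω ∈ Vk k VV x}.Finite := by
  obtain ⟨c0, C0, h0⟩ := base
  have h := h0.pow k
  have h1 : (∑' n : ℕ, Pk k (Vk k VV ((n : ℤ) + 1))) ≠ ⊤ := by
    have h2 : ∀ n : ℕ, Pk k (Vk k VV ((n : ℤ) + 1)) ≤
        ENNReal.ofReal (C0 ^ k * ((1 : ℝ) / ((n : ℝ) + 1)) ^ ((k : ℝ) / 3)) := by
      intro n
      rw [← ENNReal.ofReal_toReal (measure_ne_top (Pk k) (Vk k VV ((n : ℤ) + 1)))]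
      apply ENNReal.ofReal_le_ofReal
      refine (h.up ((n : ℤ) + 1) (by omega)).trans ?_
      apply mul_le_mul_of_nonneg_left _ h.hC.le
      show TH868.CT.ps ((n : ℤ) + 1) ^ k ≤ _
      rw [ps_pow k (by omega)]
      apply Real.rpow_le_rpow _ _ (by positivity)
      · push_cast; positivity
      · push_cast
        apply one_div_le_one_div_of_le (by positivity)
        linarith
    refine ne_top_of_le_ne_top ?_ (ENNReal.tsum_le_tsum h2)
    exact ((summable_k hk).mul_left _).tsum_ofReal_ne_top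
  filter_upwards [ae_eventually_notMem h1] with ω hω
  obtain ⟨N, hN⟩ := eventually_atTop.mp hω
  refine Set.Finite.subset (Set.finite_Icc (1 : ℤ) N) ?_
  rintro x ⟨hx, hV⟩
  have hx1 : (1 : ℤ) ≤ x := hx
  rw [Set.mem_Icc]
  refine ⟨hx1, ?_⟩
  by_contra hcon
  have h5 := hN (x - 1).toNat (by omega)
  have e : (((x - 1).toNat : ℕ) : ℤ) + 1 = x := by omega
  rw [e] at h5
  exact h5 hV

end Pool.Agent.U151.CB
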