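import Pool.Agent.U151.CB.Sys

/-!
Independent copies of a random set with the domination property.
-/

set_option autoImplicit false

namespace Pool.Agent.U151.CB

open MeasureTheory Finset

variable {Ω : Type*} [MeasurableSpace Ω] {μ : Measure Ω} [IsProbabilityMeasure μ]
  {V : ℤ → Set Ω} {g : ℤ → ℝ} {K : ℤ → ℤ → ℝ} {c C : ℝ}

/-- The points which belong to all copies. -/
def Vk (k : ℕ) (V : ℤ → Set Ω) (x : ℤ) : Set (Fin k → Ω) := {ω | ∀ i, ω i ∈ V x}

theorem pi_real (k : ℕ) (A : Fin k → Set Ω) :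
    (Measure.pi fun _ : Fin k => μ).real {ω | ∀ i, ω i ∈ A i} = ∏ i, μ.real (A i) := by
  have e : ({ω | ∀ i, ω i ∈ A i} : Set (Fin k → Ω)) = Set.pi Set.univ A := by
    ext ω
    simp [Set.mem_univ_pi]
  rw [e, measureReal_def, Measure.pi_pi, ENNReal.toReal_prod]
  rfl

theorem meas_all {k : ℕ} {A : Fin k → Set Ω} (hA : ∀ i, MeasurableSet (A i)) :
    MeasurableSet ({ω | ∀ i, ω i ∈ A i} : Set (Fin k → Ω)) := by
  have e : ({ω | ∀ i, ω i ∈ A i} : Set (Fin k → Ω)) = Set.pi Set.univ A := by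
    ext ω
    simp [Set.mem_univ_pi]
  rw [e]
  exact MeasurableSet.univ_pi hA

theorem Vk_real (k : ℕ) (x : ℤ) :
    (Measure.pi fun _ : Fin k => μ).real (Vk k V x) = μ.real (V x) ^ k := by
  have := pi_real (μ := μ) k (fun _ => V x)
  rw [Finset.prod_const, Finset.card_univ, Fintype.card_fin] at this
  exact this

theorem Vk_inter_real (k : ℕ) (x y : ℤ) :
    (Measure.pi fun _ : Fin k => μ).real (Vk k V x ∩ Vk k V y) = μ.real (V x ∩ V y) ^ k := by
  have := pi_real (μ := μ) k (fun _ => V x ∩ V y)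
  rw [Finset.prod_const, Finset.card_univ, Fintype.card_fin] at this
  rw [← this]
  congr 1
  ext ω
  simp only [Vk, Set.mem_inter_iff, Set.mem_ofPred_eq]
  exact forall_and.symm

open Classical in
/-- The patterns of the copies. -/
noncomputable def QQ (k : ℕ) (T p : Finset ℤ) (x : ℤ) : Finset (Fin k → Finset ℤ) :=
  (Fintype.piFinset fun _ => (T.filter (· < x)).powerset).filter
    (fun q => ∀ s ∈ T, s < x → ((∀ i, s ∈ q i) ↔ s ∈ p))

theorem mem_QQ {k : ℕ} {T p : Finset ℤ} {x : ℤ} {q : Fin k → Finset ℤ} : q ∈ QQ k T p x ↔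
    (∀ i, q i ⊆ T.filter (· < x)) ∧ ∀ s ∈ T, s < x → ((∀ i, s ∈ q i) ↔ s ∈ p) := by
  classical
  unfold QQ
  rw [Finset.mem_filter, Fintype.mem_piFinset]
  simp only [Finset.mem_powerset]

/-- Decomposition of the patterns of the common points. -/
theorem decomp (k : ℕ) (T p : Finset ℤ) (x : ℤ) (W : Set Ω) :
    Vk k V x ∩ Pat (Vk k V) T x p ∩ {ω | ∀ i, ω i ∈ W} =
      ⋃ q ∈ QQ k T p x, {ω : Fin k → Ω | ∀ i, ω i ∈ V x ∩ Pat V T x (q i) ∩ W} := by
  classical
  ext ω
  simp only [Set.mem_iUnion, exists_prop]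
  constructor
  · rintro ⟨⟨h1, h2⟩, h3⟩
    refine ⟨fun i => (T.filter (· < x)).filter (fun s => ω i ∈ V s), mem_QQ.mpr ⟨?_, ?_⟩, ?_⟩
    · intro i
      exact Finset.filter_subset _ _
    · intro s hs hsx
      rw [← h2 s hs hsx]
      constructor
      · intro h i
        exact (Finset.mem_filter.mp (h i)).2
      · intro h i
        exact Finset.mem_filter.mpr ⟨Finset.mem_filter.mpr ⟨hs, hsx⟩, h i⟩
    · intro i
      refine ⟨⟨h1 i, ?_⟩, h3 i⟩
      intro s hs hsx
      constructor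
      · intro h
        exact Finset.mem_filter.mpr ⟨Finset.mem_filter.mpr ⟨hs, hsx⟩, h⟩
      · intro h
        exact (Finset.mem_filter.mp h).2
  · rintro ⟨q, hq, hω⟩
    obtain ⟨-, hq2⟩ := mem_QQ.mp hq
    refine ⟨⟨fun i => (hω i).1.1, ?_⟩, fun i => (hω i).2⟩
    intro s hs hsx
    rw [← hq2 s hs hsx]
    exact forall_congr' fun i => (hω i).1.2 s hs hsx

theorem decomp_disj (k : ℕ) (T p : Finset ℤ) (x : ℤ) (W : Set Ω) :
    (↑(QQ k T p x) : Set (Fin k → Finset ℤ)).PairwiseDisjoint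
      (fun q => {ω : Fin k → Ω | ∀ i, ω i ∈ V x ∩ Pat V T x (q i) ∩ W}) := by
  intro q hq q' hq' hne
  rw [Function.onFun, Set.disjoint_left]
  intro ω h1 h2
  apply hne
  have g1 := (mem_QQ.mp (Finset.mem_coe.mp hq)).1
  have g2 := (mem_QQ.mp (Finset.mem_coe.mp hq')).1
  funext i
  ext s
  constructor
  · intro hs
    have hs' := Finset.mem_filter.mp (g1 i hs)
    exact ((h2 i).1.2 s hs'.1 hs'.2).mp (((h1 i).1.2 s hs'.1 hs'.2).mpr hs)
  · intro hs
    have hs' := Finset.mem_filter.mp (g2 i hs)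
    exact ((h1 i).1.2 s hs'.1 hs'.2).mp (((h2 i).1.2 s hs'.1 hs'.2).mpr hs)

theorem decomp_real (h : Sys μ V g K c C) (k : ℕ) (T p : Finset ℤ) (x : ℤ) {W : Set Ω}
    (hW : MeasurableSet W) :
    (Measure.pi fun _ : Fin k => μ).real
      (Vk k V x ∩ Pat (Vk k V) T x p ∩ {ω | ∀ i, ω i ∈ W}) =
      ∑ q ∈ QQ k T p x, ∏ i, μ.real (V x ∩ Pat V T x (q i) ∩ W) := by
  rw [decomp, measureReal_biUnion_finset (decomp_disj k T p x W)]
  · apply Finset.sum_congr rfl
    intro q _
    exact pi_real k (fun i => V x ∩ Pat V T x (q i) ∩ W)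
  · intro q _
    exact meas_all fun i => ((h.meas x).inter (meas_Pat h.meas T x (q i))).inter hW

/-- **Independent copies.** -/
theorem Sys.pow (h : Sys μ V g K c C) (k : ℕ) :
    Sys (Measure.pi fun _ : Fin k => μ) (Vk k V) (fun x => g x ^ k) (fun x y => K x y ^ k)
      (c ^ k) (C ^ k) where
  hc := pow_pos h.hc k
  hC := pow_pos h.hC k
  meas x := meas_all fun _ => h.meas x
  gpos x hx := pow_pos (h.gpos x hx) k
  Kge x y hx hy := one_le_pow₀ (h.Kge x y hx hy)
  Ksymm x y := by rw [h.Ksymm]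
  low x hx := by
    rw [Vk_real, ← mul_pow]
    exact pow_le_pow_left₀ (mul_nonneg h.hc.le (h.gpos x hx).le) (h.low x hx) k
  up x hx := by
    rw [Vk_real, ← mul_pow]
    exact pow_le_pow_left₀ measureReal_nonneg (h.up x hx) k
  two x y hx hy := by
    rw [Vk_inter_real, ← mul_pow, ← mul_pow, ← mul_pow]
    exact pow_le_pow_left₀ measureReal_nonneg (h.two x y hx hy) k
  dom T p x y hT hx hxy := by
    have e1 := decomp_real h k T p x (W := Set.univ) MeasurableSet.univ
    have e2 := decomp_real h k T p x (W := V y) (h.meas y)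
    have e3 : ({ω | ∀ i, ω i ∈ (Set.univ : Set Ω)} : Set (Fin k → Ω)) = Set.univ := by
      ext ω; simp
    rw [e3, Set.inter_univ] at e1
    simp only [Set.inter_univ] at e1
    have e4 : ({ω | ∀ i, ω i ∈ V y} : Set (Fin k → Ω)) = Vk k V y := rfl
    rw [e4] at e2
    rw [e1, e2, ← mul_pow, ← mul_pow, Finset.mul_sum]
    apply Finset.sum_le_sum
    intro q _
    have hy : 1 ≤ y := hx.trans hxy
    have h0 : 0 ≤ c * (g y * K x y) := mul_nonneg h.hc.le (mul_nonneg (h.gpos y hy).le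
      (zero_le_one.trans (h.Kge x y hx hy)))
    have e5 : (c * (g y * K x y)) ^ k = ∏ _i : Fin k, (c * (g y * K x y)) := by
      rw [Finset.prod_const, Finset.card_univ, Fintype.card_fin]
    rw [e5, ← Finset.prod_mul_distrib]
    apply Finset.prod_le_prod
    · intro i _
      exact mul_nonneg h0 measureReal_nonneg
    · intro i _
      exact h.dom T (q i) x y hT hx hxy

end Pool.Agent.U151.CB
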