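import Mathlib

/-!
Random subsets of the positive integers with a renewal-type domination property: capacity bounds for
the probability of hitting a set, and independent copies.
-/

set_option autoImplicit false

namespace Pool.Agent.U151.CB

open MeasureTheory Finset

/-- The event that the points of `T` to the left of `x` which belong to the random set are those
of `p`. -/
def Pat {Ω : Type*} (V : ℤ → Set Ω) (T : Finset ℤ) (x : ℤ) (p : Finset ℤ) : Set Ω :=
  {ω | ∀ s ∈ T, s < x → (ω ∈ V s ↔ s ∈ p)}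

/-- A random set (`V x` is the event that it contains `x`) with one-point function `g` and kernel `K`
up to constants, and with the domination property. -/
structure Sys {Ω : Type*} [MeasurableSpace Ω] (μ : Measure Ω) (V : ℤ → Set Ω) (g : ℤ → ℝ)
    (K : ℤ → ℤ → ℝ) (c C : ℝ) : Prop where
  hc : 0 < c
  hC : 0 < C
  meas : ∀ x, MeasurableSet (V x)
  gpos : ∀ x, 1 ≤ x → 0 < g x
  Kge : ∀ x y, 1 ≤ x → 1 ≤ y → 1 ≤ K x y
  Ksymm : ∀ x y, K x y = K y x
  low : ∀ x, 1 ≤ x → c * g x ≤ μ.real (V x)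
  up : ∀ x, 1 ≤ x → μ.real (V x) ≤ C * g x
  two : ∀ x y, 1 ≤ x → 1 ≤ y → μ.real (V x ∩ V y) ≤ C * (g x * g y * K x y)
  dom : ∀ (T p : Finset ℤ) (x y : ℤ), (∀ s ∈ T, 1 ≤ s) → 1 ≤ x → x ≤ y →
    c * (g y * K x y) * μ.real (V x ∩ Pat V T x p) ≤ μ.real (V x ∩ Pat V T x p ∩ V y)

variable {Ω : Type*} [MeasurableSpace Ω] {μ : Measure Ω} [IsProbabilityMeasure μ]
  {V : ℤ → Set Ω} {g : ℤ → ℝ} {K : ℤ → ℤ → ℝ} {c C : ℝ}

theorem meas_Pat (hV : ∀ x, MeasurableSet (V x)) (T : Finset ℤ) (x : ℤ) (p : Finset ℤ) :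
    MeasurableSet (Pat V T x p) := by
  have e : Pat V T x p = ⋂ s ∈ T, ({ω | s < x → (ω ∈ V s ↔ s ∈ p)} : Set Ω) := by
    ext ω
    simp only [Pat, Set.mem_ofPred_eq, Set.mem_iInter]
  rw [e]
  apply Finset.measurableSet_biInter
  intro s _
  by_cases h1 : s < x
  · by_cases h2 : s ∈ p
    · have : ({ω | s < x → (ω ∈ V s ↔ s ∈ p)} : Set Ω) = V s := by
        ext ω
        simp [h1, h2]
      rw [this]
      exact hV s
    · have : ({ω | s < x → (ω ∈ V s ↔ s ∈ p)} : Set Ω) = (V s)ᶜ := by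
        ext ω
        simp [h1, h2]
      rw [this]
      exact (hV s).compl
  · have : ({ω | s < x → (ω ∈ V s ↔ s ∈ p)} : Set Ω) = Set.univ := by
      ext ω
      simp [h1]
    rw [this]
    exact MeasurableSet.univ

/-- The energy of a weight. -/
noncomputable def en (K : ℤ → ℤ → ℝ) (S : Finset ℤ) (v : ℤ → ℝ) : ℝ :=
  ∑ x ∈ S, ∑ y ∈ S, v x * v y * K x y

omit [IsProbabilityMeasure μ] in
theorem en_ge (h : Sys μ V g K c C) {S : Finset ℤ} (hS : ∀ x ∈ S, 1 ≤ x) {v : ℤ → ℝ}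
    (hv : ∀ x ∈ S, 0 ≤ v x) : (∑ x ∈ S, v x) ^ 2 ≤ en K S v := by
  unfold en
  rw [sq, Finset.sum_mul_sum]
  apply Finset.sum_le_sum
  intro x hx
  apply Finset.sum_le_sum
  intro y hy
  have := h.Kge x y (hS x hx) (hS y hy)
  have h2 := mul_nonneg (hv x hx) (hv y hy)
  nlinarith

/-- The weighted number of points. -/
noncomputable def Zf (V : ℤ → Set Ω) (g : ℤ → ℝ) (S : Finset ℤ) (v : ℤ → ℝ) (ω : Ω) : ℝ :=
  ∑ x ∈ S, v x / g x * (V x).indicator 1 ω

theorem int_Zf (hV : ∀ x, MeasurableSet (V x)) (S : Finset ℤ) (v : ℤ → ℝ) (B : Set Ω)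
    (hB : MeasurableSet B) :
    Integrable (fun ω => B.indicator 1 ω * Zf V g S v ω) μ ∧
    ∫ ω, B.indicator 1 ω * Zf V g S v ω ∂μ = ∑ x ∈ S, v x / g x * μ.real (B ∩ V x) := by
  have e : (fun ω => B.indicator 1 ω * Zf V g S v ω) =
      fun ω => ∑ x ∈ S, v x / g x * (B ∩ V x).indicator (1 : Ω → ℝ) ω := by
    funext ω
    unfold Zf
    rw [Finset.mul_sum]
    apply Finset.sum_congr rfl
    intro x _
    rw [Set.inter_indicator_one]
    simp only [Pi.mul_apply]
    ring
  have hi : ∀ x ∈ S, Integrable (fun ω => v x / g x * (B ∩ V x).indicator (1 : Ω → ℝ) ω) μ := by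
    intro x _
    exact ((integrable_const (1 : ℝ)).indicator (hB.inter (hV x))).const_mul _
  rw [e]
  refine ⟨integrable_finsetSum _ hi, ?_⟩
  rw [integral_finsetSum _ hi]
  apply Finset.sum_congr rfl
  intro x _
  rw [integral_const_mul, integral_indicator_one (hB.inter (hV x))]

theorem int_Zf2 (hV : ∀ x, MeasurableSet (V x)) (S : Finset ℤ) (v : ℤ → ℝ) (B : Set Ω)
    (hB : MeasurableSet B) :
    Integrable (fun ω => B.indicator 1 ω * Zf V g S v ω ^ 2) μ ∧
    ∫ ω, B.indicator 1 ω * Zf V g S v ω ^ 2 ∂μ =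
      ∑ x ∈ S, ∑ y ∈ S, v x / g x * (v y / g y) * μ.real (B ∩ (V x ∩ V y)) := by
  have e : (fun ω => B.indicator 1 ω * Zf V g S v ω ^ 2) =
      fun ω => ∑ x ∈ S, ∑ y ∈ S,
        v x / g x * (v y / g y) * (B ∩ (V x ∩ V y)).indicator (1 : Ω → ℝ) ω := by
    funext ω
    unfold Zf
    rw [sq, Finset.sum_mul_sum, Finset.mul_sum]
    apply Finset.sum_congr rfl
    intro x _
    rw [Finset.mul_sum]
    apply Finset.sum_congr rfl
    intro y _
    rw [Set.inter_indicator_one, Set.inter_indicator_one]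
    simp only [Pi.mul_apply]
    ring
  have hi : ∀ x ∈ S, ∀ y ∈ S, Integrable (fun ω => v x / g x * (v y / g y) *
      (B ∩ (V x ∩ V y)).indicator (1 : Ω → ℝ) ω) μ := by
    intro x _ y _
    exact ((integrable_const (1 : ℝ)).indicator (hB.inter ((hV x).inter (hV y)))).const_mul _
  rw [e]
  refine ⟨integrable_finsetSum _ fun x hx => integrable_finsetSum _ fun y hy => hi x hx y hy, ?_⟩
  rw [integral_finsetSum _ fun x hx => integrable_finsetSum _ fun y hy => hi x hx y hy]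
  apply Finset.sum_congr rfl
  intro x hx
  rw [integral_finsetSum _ fun y hy => hi x hx y hy]
  apply Finset.sum_congr rfl
  intro y _
  rw [integral_const_mul, integral_indicator_one (hB.inter ((hV x).inter (hV y)))]

/-- Lower bound by the energy. -/
theorem hit_low (h : Sys μ V g K c C) {S : Finset ℤ} (hS : ∀ x ∈ S, 1 ≤ x) {v : ℤ → ℝ}
    (hv : ∀ x ∈ S, 0 ≤ v x) (hv1 : ∑ x ∈ S, v x = 1) :
    c ^ 2 / C / en K S v ≤ μ.real {ω | ∃ x ∈ S, ω ∈ V x} := by
  have hc := h.hc
  have hC := h.hC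
  have hen := en_ge h hS hv
  rw [hv1] at hen
  have hen0 : 0 < en K S v := by linarith
  have hHm : MeasurableSet {ω | ∃ x ∈ S, ω ∈ V x} := by
    have : {ω | ∃ x ∈ S, ω ∈ V x} = ⋃ x ∈ S, V x := by
      ext ω; simp
    rw [this]
    exact Finset.measurableSet_biUnion _ fun x _ => h.meas x
  obtain ⟨i1, i2⟩ := int_Zf (μ := μ) (g := g) h.meas S v Set.univ MeasurableSet.univ
  obtain ⟨j1, j2⟩ := int_Zf2 (μ := μ) (g := g) h.meas S v Set.univ MeasurableSet.univ
  simp only [Set.indicator_univ, Pi.one_apply, one_mul, Set.univ_inter] at i1 i2 j1 j2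
  have m1 : c ≤ ∫ ω, Zf V g S v ω ∂μ := by
    rw [i2]
    calc c = ∑ x ∈ S, c * v x := by rw [← Finset.mul_sum, hv1, mul_one]
      _ ≤ _ := by
        apply Finset.sum_le_sum
        intro x hx
        have hg := h.gpos x (hS x hx)
        have h2 := h.low x (hS x hx)
        calc c * v x = v x / g x * (c * g x) := by field_simp
          _ ≤ _ := mul_le_mul_of_nonneg_left h2 (div_nonneg (hv x hx) hg.le)
  have m2 : ∫ ω, Zf V g S v ω ^ 2 ∂μ ≤ C * en K S v := by
    rw [j2]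
    unfold en
    rw [Finset.mul_sum]
    apply Finset.sum_le_sum
    intro x hx
    rw [Finset.mul_sum]
    apply Finset.sum_le_sum
    intro y hy
    have hgx := h.gpos x (hS x hx)
    have hgy := h.gpos y (hS y hy)
    have h2 := h.two x y (hS x hx) (hS y hy)
    calc v x / g x * (v y / g y) * μ.real (V x ∩ V y)
        ≤ v x / g x * (v y / g y) * (C * (g x * g y * K x y)) :=
          mul_le_mul_of_nonneg_left h2 (mul_nonneg (div_nonneg (hv x hx) hgx.le)
            (div_nonneg (hv y hy) hgy.le))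
      _ = C * (v x * v y * K x y) := by field_simp
  set l : ℝ := c / (C * en K S v) with hl
  have hl0 : 0 < l := by positivity
  have key : ∀ ω, 2 * l * Zf V g S v ω - l ^ 2 * Zf V g S v ω ^ 2 ≤
      ({ω | ∃ x ∈ S, ω ∈ V x} : Set Ω).indicator (1 : Ω → ℝ) ω := by
    intro ω
    by_cases hω : ω ∈ ({ω | ∃ x ∈ S, ω ∈ V x} : Set Ω)
    · rw [Set.indicator_of_mem hω, Pi.one_apply]
      nlinarith [sq_nonneg (1 - l * Zf V g S v ω)]
    · rw [Set.indicator_of_notMem hω]
      have hZ : Zf V g S v ω = 0 := by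
        unfold Zf
        apply Finset.sum_eq_zero
        intro x hx
        have : ω ∉ V x := fun h0 => hω ⟨x, hx, h0⟩
        rw [Set.indicator_of_notMem this, mul_zero]
      rw [hZ]
      simp
  have hint : ∫ ω, (2 * l * Zf V g S v ω - l ^ 2 * Zf V g S v ω ^ 2) ∂μ ≤
      μ.real {ω | ∃ x ∈ S, ω ∈ V x} := by
    rw [← integral_indicator_one hHm]
    exact integral_mono ((i1.const_mul _).sub (j1.const_mul _))
      ((integrable_const (1 : ℝ)).indicator hHm) key
  rw [integral_sub (i1.const_mul _) (j1.const_mul _), integral_const_mul, integral_const_mul] at hint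
  refine le_trans ?_ hint
  have e1 : c ^ 2 / C / en K S v = 2 * l * c - l ^ 2 * (C * en K S v) := by
    rw [hl]
    field_simp
    ring
  rw [e1]
  have a1 : 2 * l * c ≤ 2 * l * ∫ ω, Zf V g S v ω ∂μ :=
    mul_le_mul_of_nonneg_left m1 (by positivity)
  have a2 : l ^ 2 * ∫ ω, Zf V g S v ω ^ 2 ∂μ ≤ l ^ 2 * (C * en K S v) :=
    mul_le_mul_of_nonneg_left m2 (by positivity)
  linarith

/-- Upper bound by the energy of the law of the first point. -/
theorem hit_up (h : Sys μ V g K c C) {S : Finset ℤ} (hS : ∀ x ∈ S, 1 ≤ x)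
    (hpos : 0 < μ.real {ω | ∃ x ∈ S, ω ∈ V x}) :
    ∃ v : ℤ → ℝ, (∀ x ∈ S, 0 ≤ v x) ∧ ∑ x ∈ S, v x = 1 ∧
      μ.real {ω | ∃ x ∈ S, ω ∈ V x} ≤ 2 * (C / c) / en K S v := by
  classical
  have hc := h.hc
  have hC := h.hC
  set H := μ.real {ω | ∃ x ∈ S, ω ∈ V x} with hH
  set A : ℤ → Set Ω := fun x => V x ∩ Pat V S x ∅ with hA
  have hAm : ∀ x, MeasurableSet (A x) := fun x => (h.meas x).inter (meas_Pat h.meas S x ∅)
  set a : ℤ → ℝ := fun x => μ.real (A x) with ha
  have ha0 : ∀ x, 0 ≤ a x := fun x => measureReal_nonneg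
  have hdisj : ∀ x ∈ S, ∀ y ∈ S, x < y → Disjoint (A x) (A y) := by
    intro x hx y _ hxy
    rw [Set.disjoint_left]
    rintro ω ⟨h1, -⟩ ⟨-, h2⟩
    have := (h2 x hx hxy).mp h1
    simp at this
  have hpd : (↑S : Set ℤ).PairwiseDisjoint A := by
    intro x hx y hy hne
    rcases lt_or_gt_of_ne hne with hlt | hlt
    · exact hdisj x hx y hy hlt
    · exact (hdisj y hy x hx hlt).symm
  have hsum : ∑ x ∈ S, a x = H := by
    rw [ha]
    simp only
    rw [← measureReal_biUnion_finset hpd (fun x _ => hAm x)]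
    rw [hH]
    congr 1
    ext ω
    simp only [Set.mem_iUnion, Set.mem_ofPred_eq, exists_prop]
    constructor
    · rintro ⟨x, hx, h1, -⟩
      exact ⟨x, hx, h1⟩
    · rintro ⟨x0, hx0, hW0⟩
      have hne : (S.filter (fun x => ω ∈ V x)).Nonempty :=
        ⟨x0, Finset.mem_filter.mpr ⟨hx0, hW0⟩⟩
      have hmem := Finset.min'_mem _ hne
      set m := (S.filter (fun x => ω ∈ V x)).min' hne with hm
      rw [Finset.mem_filter] at hmem
      refine ⟨m, hmem.1, hmem.2, ?_⟩
      intro s hs hsm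
      constructor
      · intro hWs
        exfalso
        have h9 : m ≤ s := by
          rw [hm]
          exact Finset.min'_le _ s (Finset.mem_filter.mpr ⟨hs, hWs⟩)
        omega
      · intro hs0
        simp at hs0
  have hpot : ∀ y ∈ S, ∑ x ∈ S.filter (· ≤ y), a x * K x y ≤ C / c := by
    intro y hy
    have hgy := h.gpos y (hS y hy)
    have k1 : ∑ x ∈ S.filter (· ≤ y), μ.real (A x ∩ V y) ≤ C * g y := by
      refine le_trans ?_ (h.up y (hS y hy))
      rw [← measureReal_biUnion_finset]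
      · apply measureReal_mono
        · intro ω hω
          simp only [Set.mem_iUnion, exists_prop] at hω
          obtain ⟨x, -, h1⟩ := hω
          exact h1.2
        · exact measure_ne_top _ _
      · intro x hx z hz hne
        have h1 := hpd (Finset.mem_coe.mpr (Finset.mem_filter.mp (Finset.mem_coe.mp hx)).1)
          (Finset.mem_coe.mpr (Finset.mem_filter.mp (Finset.mem_coe.mp hz)).1) hne
        exact h1.mono Set.inter_subset_left Set.inter_subset_left
      · intro x _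
        exact (hAm x).inter (h.meas y)
    have k2 : ∀ x ∈ S.filter (· ≤ y), c * (g y * K x y) * a x ≤ μ.real (A x ∩ V y) := by
      intro x hx
      obtain ⟨hxS, hxy⟩ := Finset.mem_filter.mp hx
      exact h.dom S ∅ x y hS (hS x hxS) hxy
    rw [le_div_iff₀ hc]
    have k3 := (Finset.sum_le_sum k2).trans k1
    have e : ∑ x ∈ S.filter (· ≤ y), c * (g y * K x y) * a x =
        (∑ x ∈ S.filter (· ≤ y), a x * K x y) * c * g y := by
      rw [Finset.sum_mul, Finset.sum_mul]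
      apply Finset.sum_congr rfl
      intro x _
      ring
    rw [e] at k3
    exact le_of_mul_le_mul_right k3 hgy
  have hen : en K S a ≤ 2 * (C / c) * H := by
    have e1 : en K S a ≤ ∑ y ∈ S, 2 * (a y * ∑ x ∈ S.filter (· ≤ y), a x * K x y) := by
      have e2 : en K S a ≤ ∑ y ∈ S, ∑ x ∈ S, ((if x ≤ y then a x * a y * K x y else 0) +
          (if y ≤ x then a x * a y * K x y else 0)) := by
        unfold en
        rw [Finset.sum_comm]
        apply Finset.sum_le_sum
        intro y hy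
        apply Finset.sum_le_sum
        intro x hx
        have h0 : 0 ≤ a x * a y * K x y :=
          mul_nonneg (mul_nonneg (ha0 x) (ha0 y))
            (zero_le_one.trans (h.Kge x y (hS x hx) (hS y hy)))
        split_ifs <;> first | linarith | omega
      refine e2.trans (le_of_eq ?_)
      simp only [Finset.sum_add_distrib]
      have e3 : ∑ y ∈ S, ∑ x ∈ S, (if y ≤ x then a x * a y * K x y else 0) =
          ∑ y ∈ S, ∑ x ∈ S, (if x ≤ y then a x * a y * K x y else 0) := by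
        rw [Finset.sum_comm]
        apply Finset.sum_congr rfl
        intro x _
        apply Finset.sum_congr rfl
        intro y _
        rw [h.Ksymm, mul_comm (a y)]
      rw [e3, ← Finset.sum_add_distrib]
      apply Finset.sum_congr rfl
      intro y _
      rw [Finset.sum_filter, ← two_mul]
      congr 1
      rw [Finset.mul_sum]
      apply Finset.sum_congr rfl
      intro x _
      split_ifs
      · ring
      · ring
    refine e1.trans ?_
    calc ∑ y ∈ S, 2 * (a y * ∑ x ∈ S.filter (· ≤ y), a x * K x y)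
        ≤ ∑ y ∈ S, 2 * (a y * (C / c)) := by
          apply Finset.sum_le_sum
          intro y hy
          apply mul_le_mul_of_nonneg_left _ (by norm_num)
          exact mul_le_mul_of_nonneg_left (hpot y hy) (ha0 y)
      _ = 2 * (C / c) * ∑ y ∈ S, a y := by
          rw [Finset.mul_sum]
          apply Finset.sum_congr rfl
          intro y _
          ring
      _ = 2 * (C / c) * H := by rw [hsum]
  refine ⟨fun x => a x / H, fun x _ => div_nonneg (ha0 x) hpos.le, ?_, ?_⟩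
  · rw [← Finset.sum_div, hsum, div_self hpos.ne']
  · have e : en K S (fun x => a x / H) = en K S a / H ^ 2 := by
      unfold en
      rw [Finset.sum_div]
      apply Finset.sum_congr rfl
      intro x _
      rw [Finset.sum_div]
      apply Finset.sum_congr rfl
      intro y _
      field_simp
    have hpos2 : 0 < en K S a := by
      have h1 := en_ge h hS (v := a) (fun x _ => ha0 x)
      rw [hsum] at h1
      have : 0 < H ^ 2 := by positivity
      linarith
    rw [e, le_div_iff₀ (by positivity)]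
    calc H * (en K S a / H ^ 2) ≤ H * (2 * (C / c) * H / H ^ 2) := by
          apply mul_le_mul_of_nonneg_left _ hpos.le
          exact div_le_div_of_nonneg_right hen (by positivity)
      _ = 2 * (C / c) := by field_simp

/-- The capacity of a set. -/
noncomputable def cap (K : ℤ → ℤ → ℝ) (S : Set ℤ) : ℝ :=
  sSup {r | ∃ (T : Finset ℤ) (v : ℤ → ℝ), (∀ x ∈ T, x ∈ S ∧ 0 ≤ v x) ∧ ∑ x ∈ T, v x = 1 ∧
    r = 1 / en K T v}

theorem one_div_en_le (h : Sys μ V g K c C) {T : Finset ℤ} (hT : ∀ x ∈ T, 1 ≤ x) {v : ℤ → ℝ}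
    (hv : ∀ x ∈ T, 0 ≤ v x) (hv1 : ∑ x ∈ T, v x = 1) : 1 / en K T v ≤ 1 := by
  have h1 := en_ge h hT hv
  rw [hv1] at h1
  rw [div_le_one (by linarith)]
  linarith

theorem cap_bdd (h : Sys μ V g K c C) {S : Set ℤ} (hS : ∀ x ∈ S, 1 ≤ x) :
    BddAbove {r | ∃ (T : Finset ℤ) (v : ℤ → ℝ), (∀ x ∈ T, x ∈ S ∧ 0 ≤ v x) ∧
      ∑ x ∈ T, v x = 1 ∧ r = 1 / en K T v} := by
  refine ⟨1, ?_⟩
  rintro r ⟨T, v, h1, h2, rfl⟩
  exact one_div_en_le h (fun x hx => hS x (h1 x hx).1) (fun x hx => (h1 x hx).2) h2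

theorem le_cap (h : Sys μ V g K c C) {S : Set ℤ} (hS : ∀ x ∈ S, 1 ≤ x) {T : Finset ℤ}
    {v : ℤ → ℝ} (h1 : ∀ x ∈ T, x ∈ S ∧ 0 ≤ v x) (h2 : ∑ x ∈ T, v x = 1) :
    1 / en K T v ≤ cap K S :=
  le_csSup (cap_bdd h hS) ⟨T, v, h1, h2, rfl⟩

theorem cap_nonneg (h : Sys μ V g K c C) {S : Set ℤ} (hS : ∀ x ∈ S, 1 ≤ x) : 0 ≤ cap K S := by
  apply Real.sSup_nonneg
  rintro r ⟨T, v, h1, h2, rfl⟩
  have h3 := en_ge h (S := T) (fun x hx => hS x (h1 x hx).1) (v := v) (fun x hx => (h1 x hx).2)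
  rw [h2] at h3
  apply div_nonneg zero_le_one
  linarith

theorem cap_le_one (h : Sys μ V g K c C) {S : Set ℤ} (hS : ∀ x ∈ S, 1 ≤ x) : cap K S ≤ 1 := by
  apply Real.sSup_le _ zero_le_one
  rintro r ⟨T, v, h1, h2, rfl⟩
  exact one_div_en_le h (fun x hx => hS x (h1 x hx).1) (fun x hx => (h1 x hx).2) h2

/-- The probability to hit a set is comparable to its capacity. -/
theorem cap_main (h : Sys μ V g K c C) {S : Set ℤ} (hS : ∀ x ∈ S, 1 ≤ x) :
    c ^ 2 / C * cap K S ≤ μ.real {ω | ∃ x ∈ S, ω ∈ V x} ∧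
    μ.real {ω | ∃ x ∈ S, ω ∈ V x} ≤ 2 * (C / c) * cap K S := by
  classical
  have hc := h.hc
  have hC := h.hC
  have hmono : ∀ T : Finset ℤ, (∀ x ∈ T, x ∈ S) →
      μ.real {ω | ∃ x ∈ T, ω ∈ V x} ≤ μ.real {ω | ∃ x ∈ S, ω ∈ V x} := by
    intro T hT
    apply measureReal_mono _ (measure_ne_top _ _)
    rintro ω ⟨x, hx, h1⟩
    exact ⟨x, hT x hx, h1⟩
  constructor
  · have hq : 0 < c ^ 2 / C := by positivity
    rw [mul_comm, ← le_div_iff₀ hq]
    apply Real.sSup_le
    · rintro r ⟨T, v, h1, h2, rfl⟩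
      rw [le_div_iff₀ hq]
      have h3 := hit_low h (S := T) (fun x hx => hS x (h1 x hx).1) (fun x hx => (h1 x hx).2) h2
      have e : 1 / en K T v * (c ^ 2 / C) = c ^ 2 / C / en K T v := by ring
      rw [e]
      exact h3.trans (hmono T fun x hx => (h1 x hx).1)
    · exact div_nonneg measureReal_nonneg hq.le
  · set p := μ.real {ω | ∃ x ∈ S, ω ∈ V x} with hp
    -- finitely many points
    have hmono2 : Monotone (fun n : ℕ => {ω : Ω | ∃ x ∈ S, x ≤ (n : ℤ) ∧ ω ∈ V x}) := by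
      rintro n m hnm ω ⟨x, hx, hxn, hC⟩
      exact ⟨x, hx, by omega, hC⟩
    have ht := tendsto_measure_iUnion_atTop (μ := μ) hmono2
    have hU : (⋃ n : ℕ, {ω : Ω | ∃ x ∈ S, x ≤ (n : ℤ) ∧ ω ∈ V x}) = {ω | ∃ x ∈ S, ω ∈ V x} := by
      ext ω
      simp only [Set.mem_iUnion, Set.mem_ofPred_eq]
      constructor
      · rintro ⟨n, x, hx, _, hC⟩
        exact ⟨x, hx, hC⟩
      · rintro ⟨x, hx, hC⟩
        exact ⟨x.toNat, x, hx, by omega, hC⟩
    rw [hU] at ht
    have ht2 := (ENNReal.tendsto_toReal (measure_ne_top μ _)).comp ht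
    refine le_of_tendsto' ht2 (fun n => ?_)
    set T : Finset ℤ := (Finset.Icc (1 : ℤ) n).filter (· ∈ S) with hT
    have hTS : ∀ x ∈ T, x ∈ S := fun x hx => (Finset.mem_filter.mp hx).2
    have hTeq : {ω : Ω | ∃ x ∈ S, x ≤ (n : ℤ) ∧ ω ∈ V x} = {ω | ∃ x ∈ T, ω ∈ V x} := by
      ext ω
      constructor
      · rintro ⟨x, hx, hxn, hC⟩
        exact ⟨x, Finset.mem_filter.mpr ⟨Finset.mem_Icc.mpr ⟨hS x hx, hxn⟩, hx⟩, hC⟩
      · rintro ⟨x, hx, hC⟩
        have h1 := Finset.mem_filter.mp hx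
        exact ⟨x, h1.2, (Finset.mem_Icc.mp h1.1).2, hC⟩
    show μ.real {ω : Ω | ∃ x ∈ S, x ≤ (n : ℤ) ∧ ω ∈ V x} ≤ _
    rw [hTeq]
    rcases (measureReal_nonneg : 0 ≤ μ.real {ω | ∃ x ∈ T, ω ∈ V x}).eq_or_lt with h0 | h0
    · rw [← h0]
      exact mul_nonneg (by positivity) (cap_nonneg h hS)
    · obtain ⟨v, hv0, hv1, hv2⟩ := hit_up h (S := T) (fun x hx => hS x (hTS x hx)) h0
      have h5 := le_cap h hS (T := T) (v := v) (fun x hx => ⟨hTS x hx, hv0 x hx⟩) hv1
      refine hv2.trans ?_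
      calc 2 * (C / c) / en K T v = 2 * (C / c) * (1 / en K T v) := by ring
        _ ≤ 2 * (C / c) * cap K S := mul_le_mul_of_nonneg_left h5 (by positivity)

end Pool.Agent.U151.CB
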